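import Mathlib

/-!
# The numbers `N_m = 8 d_m ^ 2 + 1`, `d_m + b_m √8 = (3 + √8) ^ m`: common factors
-/

set_option autoImplicit false

open Finset

namespace Pool.Agent.K9h50.PG

/-- the solutions `(d_m, b_m)` of `d² - 8 b² = 1` -/
def sol : ℕ → ℕ × ℕ
  | 0 => (1, 0)
  | m + 1 => (3 * (sol m).1 + 8 * (sol m).2, (sol m).1 + 3 * (sol m).2)

/-- `N_m = 8 d_m² + 1` -/
def N (m : ℕ) : ℕ := 8 * (sol m).1 ^ 2 + 1

lemma pell (m : ℕ) : (sol m).1 ^ 2 = 8 * (sol m).2 ^ 2 + 1 := by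
  induction m with
  | zero => simp [sol]
  | succ m ih =>
    simp only [sol]
    nlinarith

lemma N_eq (m : ℕ) : N m = 64 * (sol m).2 ^ 2 + 9 := by
  rw [N, pell]; ring

/-- `(3 + w) ^ m = d_m + b_m w` if `w ^ 2 = 8` -/
lemma pow_eq {R : Type*} [CommRing R] (w : R) (hw : w ^ 2 = 8) (m : ℕ) :
    (3 + w) ^ m = ((sol m).1 : R) + ((sol m).2 : R) * w := by
  induction m with
  | zero => simp [sol]
  | succ m ih =>
    rw [pow_succ, ih]
    simp only [sol]
    push_cast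
    linear_combination ((sol m).2 : R) * hw

lemma pow_eq' {R : Type*} [CommRing R] (w : R) (hw : w ^ 2 = 8) (m : ℕ) :
    (3 - w) ^ m = ((sol m).1 : R) - ((sol m).2 : R) * w := by
  have := pow_eq (-w) (by rw [neg_sq, hw]) m
  rw [← sub_eq_add_neg] at this
  rw [this]; ring

/-- `T_{a, c} = 4 ^ c + 1 - (-2) ^ c (β ^ a + β ^ (-a))`, `β = (3 + √8) ^ 2` -/
def T (a c : ℕ) : ℤ := 4 ^ c + 1 - (-2) ^ c * (4 * ((sol a).1 : ℤ) ^ 2 - 2)

lemma b_le (a : ℕ) : 8 * (sol a).2 ≤ 3 * (sol a).1 := by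
  have := pell a
  by_contra h
  push Not at h
  nlinarith

lemma d_le (a : ℕ) : (sol a).1 ≤ 6 ^ a := by
  induction a with
  | zero => simp [sol]
  | succ a ih =>
    have := b_le a
    simp only [sol]
    rw [pow_succ]
    omega

lemma d_ge (a : ℕ) : 3 * 5 ^ a ≤ (sol (a + 1)).1 ∧ 1 ≤ (sol (a + 1)).2 := by
  induction a with
  | zero => simp [sol]
  | succ a ih =>
    obtain ⟨h1, h2⟩ := ih
    have h3 := pell (a + 1)
    have h4 : (sol (a + 1)).1 ≤ 4 * (sol (a + 1)).2 := by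
      by_contra h
      push Not at h
      nlinarith
    rw [sol]
    simp only
    rw [pow_succ]
    constructor <;> omega

lemma T_ne (a c : ℕ) (h : a ≠ 0 ∨ c ≠ 0) : T a c ≠ 0 := by
  intro h0
  unfold T at h0
  rcases Nat.eq_zero_or_pos c with rfl | hc
  · have ha : a ≠ 0 := by simpa using h
    obtain ⟨k, rfl⟩ := Nat.exists_eq_succ_of_ne_zero ha
    have h1 := (d_ge k).1
    have h2 : 1 ≤ 5 ^ k := Nat.one_le_pow _ _ (by norm_num)
    have h3 : (3 : ℤ) ≤ ((sol (k + 1)).1 : ℤ) := by exact_mod_cast (by omega : 3 ≤ (sol (k + 1)).1)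
    simp only [pow_zero, Nat.succ_eq_add_one] at h0
    nlinarith
  · obtain ⟨k, rfl⟩ := Nat.exists_eq_succ_of_ne_zero hc.ne'
    have h1 : (2 : ℤ) ∣ 1 := by
      refine ⟨(-1) * (-2) ^ k * (4 * ((sol a).1 : ℤ) ^ 2 - 2) - 2 * 4 ^ k, ?_⟩
      rw [Nat.succ_eq_add_one, pow_succ, pow_succ] at h0
      linarith
    norm_num at h1

lemma T_le (a c h : ℕ) (ha : a ≤ h) (hc : c ≤ h) (hh : 1 ≤ h) : |T a c| ≤ 864 ^ h := by
  have h1 : ((sol a).1 : ℤ) ≤ 6 ^ a := by exact_mod_cast d_le a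
  have h2 : ((sol a).1 : ℤ) ^ 2 ≤ 36 ^ a := by
    calc ((sol a).1 : ℤ) ^ 2 ≤ (6 ^ a) ^ 2 := pow_le_pow_left₀ (by positivity) h1 2
      _ = 36 ^ a := by rw [← pow_mul, mul_comm, pow_mul]; norm_num
  have h2' : (1 : ℤ) ≤ ((sol a).1 : ℤ) ^ 2 := by
    have := pell a
    exact_mod_cast (by omega : 1 ≤ (sol a).1 ^ 2)
  have h3 : |(-2 : ℤ) ^ c * (4 * ((sol a).1 : ℤ) ^ 2 - 2)| ≤ 4 ^ c * (4 * 36 ^ a) := by
    rw [abs_mul, abs_pow]
    refine mul_le_mul ?_ ?_ (abs_nonneg _) (by positivity)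
    · exact pow_le_pow_left₀ (by norm_num) (by norm_num) c
    · rw [abs_of_nonneg (by linarith)]
      linarith
  have h4 : (1 : ℤ) ≤ 4 ^ c := one_le_pow₀ (by norm_num)
  have h5 : (1 : ℤ) ≤ 36 ^ a := one_le_pow₀ (by norm_num)
  have h6 : |T a c| ≤ 6 * (4 ^ c * 36 ^ a) := by
    unfold T
    refine (abs_sub _ _).trans ?_
    rw [abs_of_nonneg (by positivity : (0 : ℤ) ≤ 4 ^ c + 1)]
    nlinarith [mul_le_mul h4 h5 (by norm_num) (by positivity)]
  refine h6.trans ?_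
  calc (6 : ℤ) * (4 ^ c * 36 ^ a) ≤ 6 ^ h * (4 ^ h * 36 ^ h) := by
        refine mul_le_mul ?_ (mul_le_mul ?_ ?_ (by positivity) (by positivity)) (by positivity)
          (by positivity)
        · exact le_self_pow₀ (by norm_num) (by omega)
        · exact pow_le_pow_right₀ (by norm_num) hc
        · exact pow_le_pow_right₀ (by norm_num) ha
    _ = 864 ^ h := by rw [← mul_pow, ← mul_pow]; norm_num

lemma pow_le_exp (h : ℕ) : (864 : ℝ) ^ h ≤ Real.exp (7 * h) := by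
  have h1 : (864 : ℝ) ≤ Real.exp 7 := by
    have e : Real.exp 7 = Real.exp 1 ^ 7 := by rw [← Real.exp_nat_mul]; norm_num
    rw [e]
    have h2 := Real.exp_one_gt_d9
    calc (864 : ℝ) ≤ 2.7 ^ 7 := by norm_num
      _ ≤ Real.exp 1 ^ 7 := pow_le_pow_left₀ (by norm_num) (by linarith) 7
  calc (864 : ℝ) ^ h ≤ Real.exp 7 ^ h := pow_le_pow_left₀ (by norm_num) h1 h
    _ = Real.exp (7 * h) := by rw [← Real.exp_nat_mul]; ring_nf

/-- one case of the pigeonhole argument -/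
lemma box_aux (q : ℕ) (w : ZMod q) (hw : w ^ 2 = 8) (a c : ℕ)
    (h : ((3 + w) ^ 2) ^ a * (-2) ^ c = 1 ∨ (-2) ^ c = ((3 + w) ^ 2) ^ a) : (q : ℤ) ∣ T a c := by
  rw [← CharP.intCast_eq_zero_iff (ZMod q) q, T]
  push_cast
  have hp := congrArg (Nat.cast : ℕ → ZMod q) (pell a)
  push_cast at hp
  have e1 := pow_eq w hw a
  have e2 := pow_eq' w hw a
  have e3 : (3 + w) ^ a * (3 - w) ^ a = 1 := by
    rw [← mul_pow]
    have : (3 + w) * (3 - w) = 1 := by linear_combination -hw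
    rw [this, one_pow]
  have e4 : (4 * ((sol a).1 : ZMod q) ^ 2 - 2) = ((3 + w) ^ 2) ^ a + ((3 - w) ^ 2) ^ a := by
    rw [← pow_mul, ← pow_mul, mul_comm 2 a, pow_mul, pow_mul, e1, e2]
    linear_combination 2 * hp - 2 * ((sol a).2 : ZMod q) ^ 2 * hw
  have e5 : ((3 + w) ^ 2) ^ a * ((3 - w) ^ 2) ^ a = 1 := by
    rw [← pow_mul, ← pow_mul, mul_comm 2 a, pow_mul, pow_mul, ← mul_pow, e3, one_pow]
  rw [e4]
  have e6 : (4 : ZMod q) ^ c = (-2) ^ c * (-2) ^ c := by rw [← mul_pow]; norm_num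
  rw [e6]
  generalize ((3 + w) ^ 2) ^ a = U at *
  generalize ((3 - w) ^ 2) ^ a = V at *
  generalize ((-2 : ZMod q)) ^ c = x at *
  rcases h with h | h
  · have hV : V = x := by
      calc V = V * (U * x) := by rw [h, mul_one]
        _ = (U * V) * x := by ring
        _ = x := by rw [e5, one_mul]
    rw [hV]
    linear_combination -h
  · rw [h]
    linear_combination -e5

/-- **The pigeonhole argument.** -/
lemma box (q : ℕ) (w : ZMod q) (hw : w ^ 2 = 8) (m t : ℕ) (ht : 1 ≤ t)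
    (hm : ((3 + w) ^ 2) ^ m = -2) (h1 : ((3 + w) ^ 2) ^ t = 1) :
    ∃ a c : ℕ, a ^ 2 ≤ t ∧ c ^ 2 ≤ t ∧ (a ≠ 0 ∨ c ≠ 0) ∧ (q : ℤ) ∣ T a c := by
  classical
  have huv : (3 + w) ^ 2 * (3 - w) ^ 2 = 1 := by
    rw [← mul_pow]
    have : (3 + w) * (3 - w) = 1 := by linear_combination -hw
    rw [this, one_pow]
  set u := (3 + w) ^ 2 with hu
  set v := (3 - w) ^ 2 with hv
  have huvn : ∀ n, u ^ n * v ^ n = 1 := fun n => by rw [← mul_pow, huv, one_pow]
  set h := Nat.sqrt t with hh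
  have hht : t < (h + 1) * (h + 1) := Nat.lt_succ_sqrt t
  have hht' : h * h ≤ t := Nat.sqrt_le t
  have key : ∀ i i' j j' : ℕ, i ≤ h → i' ≤ h → j ≤ h → j' ≤ j → (i, j) ≠ (i', j') →
      u ^ i * (-2) ^ j = u ^ i' * (-2) ^ j' →
      ∃ a c : ℕ, a ^ 2 ≤ t ∧ c ^ 2 ≤ t ∧ (a ≠ 0 ∨ c ≠ 0) ∧ (q : ℤ) ∣ T a c := by
    intro i i' j j' hi hi' hj hjj hne heq
    obtain ⟨c, rfl⟩ := Nat.exists_eq_add_of_le hjj
    have hc : c ≤ h := by omega
    have e1 : u ^ i * (-2) ^ c = u ^ i' := by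
      have h2 : (-2 : ZMod q) ^ j' * v ^ (m * j') = 1 := by
        rw [← hm, ← pow_mul, huvn]
      calc u ^ i * (-2) ^ c = (u ^ i * (-2) ^ (j' + c)) * v ^ (m * j') := by
            rw [pow_add]
            linear_combination (-(u ^ i * (-2) ^ c)) * h2
        _ = (u ^ i' * (-2) ^ j') * v ^ (m * j') := by rw [heq]
        _ = u ^ i' := by rw [mul_assoc, h2, mul_one]
    have hsq : ∀ x : ℕ, x ≤ h → x ^ 2 ≤ t := fun x hx => by nlinarith
    rcases le_total i' i with hii | hii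
    · obtain ⟨a, rfl⟩ := Nat.exists_eq_add_of_le hii
      refine ⟨a, c, hsq a (by omega), hsq c hc, ?_, box_aux q w hw a c (Or.inl ?_)⟩
      · by_contra hcon
        push Not at hcon
        apply hne
        rw [hcon.1, hcon.2]; simp
      · calc u ^ a * (-2) ^ c = (u ^ (i' + a) * (-2) ^ c) * v ^ i' := by
              rw [pow_add]
              linear_combination (-(u ^ a * (-2) ^ c)) * huvn i'
          _ = 1 := by rw [e1, huvn]
    · obtain ⟨a, rfl⟩ := Nat.exists_eq_add_of_le hii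
      refine ⟨a, c, hsq a (by omega), hsq c hc, ?_, box_aux q w hw a c (Or.inr ?_)⟩
      · by_contra hcon
        push Not at hcon
        apply hne
        rw [hcon.1, hcon.2]; simp
      · calc (-2) ^ c = (u ^ i * (-2) ^ c) * v ^ i := by
              linear_combination (-((-2) ^ c)) * huvn i
          _ = u ^ (i + a) * v ^ i := by rw [e1]
          _ = u ^ a := by
              rw [pow_add]
              linear_combination (u ^ a) * huvn i
  have hcard : (range t).card < (range (h + 1) ×ˢ range (h + 1)).card := by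
    rw [card_range, card_product, card_range]; exact hht
  obtain ⟨x, hx, y, hy, hxy, hf⟩ := Finset.exists_ne_map_eq_of_card_lt_of_maps_to hcard
    (f := fun x : ℕ × ℕ => (x.1 + m * x.2) % t)
    (fun x _ => Finset.mem_coe.2 (mem_range.2 (Nat.mod_lt _ (by omega))))
  obtain ⟨i, j⟩ := x
  obtain ⟨i', j'⟩ := y
  simp only [mem_product, mem_range] at hx hy
  simp only at hf
  have e : u ^ i * (-2) ^ j = u ^ i' * (-2) ^ j' := by
    rw [← hm, ← pow_mul u m j, ← pow_mul u m j', ← pow_add, ← pow_add, pow_eq_pow_mod (i + m * j) h1,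
      pow_eq_pow_mod (i' + m * j') h1, hf]
  rcases le_total j' j with hjj | hjj
  · exact key i i' j j' (by omega) (by omega) (by omega) hjj hxy e
  · exact key i' i j' j (by omega) (by omega) (by omega) hjj hxy.symm e.symm

/-- the size of a modulus -/
lemma size (q : ℕ) (w : ZMod q) (hw : w ^ 2 = 8) (m t : ℕ) (ht : 1 ≤ t)
    (hm : ((3 + w) ^ 2) ^ m = -2) (h1 : ((3 + w) ^ 2) ^ t = 1) :
    (q : ℝ) ≤ Real.exp (7 * √t) := by
  obtain ⟨a, c, ha, hc, hac, hT⟩ := box q w hw m t ht hm h1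
  have h2 : 1 ≤ max a c := by
    rcases hac with h | h
    · exact le_max_of_le_left (by omega)
    · exact le_max_of_le_right (by omega)
  have h3 := T_le a c (max a c) (le_max_left _ _) (le_max_right _ _) h2
  have h4 : (q : ℤ) ≤ |T a c| := Int.le_of_dvd (abs_pos.2 (T_ne a c hac)) ((dvd_abs _ _).2 hT)
  have h5 : ((max a c : ℕ) : ℝ) ≤ √t := by
    apply Real.le_sqrt_of_sq_le
    rcases max_choice a c with h | h <;> rw [h] <;> exact_mod_cast (by assumption)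
  have h6 : (q : ℝ) ≤ (864 : ℝ) ^ (max a c) := by exact_mod_cast h4.trans h3
  refine h6.trans ((pow_le_exp _).trans (Real.exp_le_exp.2 ?_))
  linarith

end Pool.Agent.K9h50.PG
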