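import Pool.Agent.K9h50.PG.Lcm

/-!
# The asymptotic formula and the distinct prime divisors
-/

set_option autoImplicit false

open Finset

namespace Pool.Agent.K9h50.PG

lemma sol_real (m : ℕ) : ((sol m).1 : ℝ) + ((sol m).2 : ℝ) * √8 = (3 + √8) ^ m :=
  (pow_eq (√8) (Real.sq_sqrt (by norm_num)) m).symm

lemma sqrt8 : (2.8 : ℝ) < √8 ∧ √8 < 2.9 := by
  constructor
  · rw [Real.lt_sqrt (by norm_num)]; norm_num
  · rw [Real.sqrt_lt' (by norm_num)]; norm_num

lemma N_ge (m : ℕ) : ((3 + √8) ^ m) ^ 2 ≤ (N m : ℝ) ∧ (N m : ℝ) ≤ 9 * ((3 + √8) ^ m) ^ 2 := by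
  have hs := sqrt8
  have h8 : (√8 : ℝ) ^ 2 = 8 := Real.sq_sqrt (by norm_num)
  have h1 := pow_eq (√8 : ℝ) h8 m
  have h2 := pow_eq' (√8 : ℝ) h8 m
  have h3 : (3 + √8 : ℝ) ^ m * (3 - √8) ^ m = 1 := by
    rw [← mul_pow]
    have : (3 + √8 : ℝ) * (3 - √8) = 1 := by nlinarith
    rw [this, one_pow]
  have h4 : 0 < (3 - √8 : ℝ) ^ m := pow_pos (by linarith) m
  have h5 : (3 - √8 : ℝ) ^ m ≤ 1 := pow_le_one₀ (by linarith) (by linarith)
  have h6 : 1 ≤ (3 + √8 : ℝ) ^ m := one_le_pow₀ (by linarith)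
  have hN : (N m : ℝ) = 8 * ((sol m).1 : ℝ) ^ 2 + 1 := by
    rw [N]; push_cast; ring
  have h7 : ((sol m).1 : ℝ) = ((3 + √8) ^ m + (3 - √8) ^ m) / 2 := by
    rw [h1, h2]; ring
  rw [hN, h7]
  generalize (3 + √8 : ℝ) ^ m = A at *
  generalize (3 - √8 : ℝ) ^ m = B at *
  constructor
  · nlinarith
  · nlinarith

lemma logN (m : ℕ) : 2 * m * Real.log (3 + √8) ≤ Real.log (N m) ∧
    Real.log (N m) ≤ 3 + 2 * m * Real.log (3 + √8) := by
  have hs := sqrt8
  obtain ⟨h1, h2⟩ := N_ge m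
  have hA : 0 < (3 + √8 : ℝ) ^ m := pow_pos (by linarith) m
  have e : Real.log (((3 + √8) ^ m) ^ 2) = 2 * m * Real.log (3 + √8) := by
    rw [Real.log_pow, Real.log_pow]; push_cast; ring
  have hN : (0 : ℝ) < N m := by exact_mod_cast N_pos m
  have h9 : Real.log 9 ≤ 3 := by
    rw [Real.log_le_iff_le_exp (by norm_num)]
    have e3 : Real.exp 3 = Real.exp 1 ^ 3 := by rw [← Real.exp_nat_mul]; norm_num
    rw [e3]
    have h2 := Real.exp_one_gt_d9
    calc (9 : ℝ) ≤ 2.7 ^ 3 := by norm_num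
      _ ≤ Real.exp 1 ^ 3 := pow_le_pow_left₀ (by norm_num) (by linarith) 3
  constructor
  · rw [← e]
    exact Real.log_le_log (by positivity) h1
  · have h3 := Real.log_le_log hN h2
    rw [Real.log_mul (by norm_num) (by positivity), e] at h3
    linarith

lemma log_alpha : (3 / 2 : ℝ) ≤ Real.log (3 + √8) ∧ Real.log (3 + √8) ≤ 2 := by
  have hs := sqrt8
  constructor
  · rw [Real.le_log_iff_exp_le (by linarith)]
    have e3 : Real.exp (3 / 2) ^ 2 = Real.exp 1 ^ 3 := by
      rw [← Real.exp_nat_mul, ← Real.exp_nat_mul]; norm_num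
    have h2 := Real.exp_one_lt_d9
    have h3 : Real.exp 1 ^ 3 ≤ 2.8 ^ 3 := pow_le_pow_left₀ (Real.exp_pos 1).le (by linarith) 3
    have h4 : Real.exp (3 / 2) ^ 2 ≤ 5 ^ 2 := by
      rw [e3]
      exact h3.trans (by norm_num)
    have h5 := abs_le_of_sq_le_sq' h4 (by norm_num)
    linarith [h5.2]
  · rw [Real.log_le_iff_le_exp (by linarith)]
    have e3 : Real.exp 2 = Real.exp 1 ^ 2 := by rw [← Real.exp_nat_mul]; norm_num
    rw [e3]
    have h2 := Real.exp_one_gt_d9
    have : (2.7 : ℝ) ^ 2 ≤ Real.exp 1 ^ 2 := pow_le_pow_left₀ (by norm_num) (by linarith) 2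
    nlinarith

lemma logN3 (m : ℕ) : 3 * (m : ℝ) ≤ Real.log (N m) := by
  have h1 := (logN m).1
  have h2 := log_alpha.1
  have h3 : (0 : ℝ) ≤ m := by positivity
  nlinarith

lemma sum_id (X : ℕ) : ∑ m ∈ Icc 1 X, (2 * (m : ℝ)) = X * (X + 1) := by
  induction X with
  | zero => simp
  | succ X ih =>
    rw [sum_Icc_succ_top (by omega), ih]
    push_cast
    ring

lemma log_L_le (X : ℕ) : Real.log (L X) ≤ ∑ m ∈ Icc 1 X, Real.log (N m) := by
  rw [← Real.log_prod (fun m _ => by exact_mod_cast (N_pos m).ne')]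
  refine Real.log_le_log (by exact_mod_cast L_pos X) ?_
  have h1 : L X ∣ ∏ m ∈ Icc 1 X, N m := Finset.lcm_dvd fun m hm => dvd_prod_of_mem N hm
  have h2 := Nat.le_of_dvd (prod_pos fun m _ => N_pos m) h1
  exact_mod_cast h2

lemma rpow32 (X : ℕ) : (X : ℝ) ≤ (X : ℝ) ^ (3 / 2 : ℝ) := by
  rcases Nat.eq_zero_or_pos X with h | h
  · rw [h]; simp
  · have h1 : (1 : ℝ) ≤ X := by exact_mod_cast h
    calc (X : ℝ) = (X : ℝ) ^ (1 : ℝ) := (Real.rpow_one _).symm
      _ ≤ _ := Real.rpow_le_rpow_of_exponent_le h1 (by norm_num)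

/-- **The least common multiple.** -/
theorem lcm_asymp (X : ℕ) :
    |Real.log ((Icc 1 X).lcm N : ℕ) - (X : ℝ) ^ 2 * Real.log (3 + √8)| ≤ 170 * (X : ℝ) ^ (3 / 2 : ℝ) := by
  have h1 := sum_log X
  have h2 := log_L_le X
  unfold L at h1 h2
  obtain ⟨ha, hb⟩ := log_alpha
  have hX := rpow32 X
  have hX0 : (0 : ℝ) ≤ X := by positivity
  have h3 : (X : ℝ) * (X + 1) * Real.log (3 + √8) ≤ ∑ m ∈ Icc 1 X, Real.log (N m) := by
    rw [← sum_id, sum_mul]
    exact sum_le_sum fun m _ => (logN m).1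
  have h4 : ∑ m ∈ Icc 1 X, Real.log (N m) ≤ 3 * X + (X : ℝ) * (X + 1) * Real.log (3 + √8) := by
    calc ∑ m ∈ Icc 1 X, Real.log (N m) ≤ ∑ m ∈ Icc 1 X, (3 + 2 * (m : ℝ) * Real.log (3 + √8)) :=
          sum_le_sum fun m _ => (logN m).2
      _ = _ := by
          rw [sum_add_distrib, ← sum_mul, sum_id, sum_const, Nat.card_Icc, nsmul_eq_mul]
          push_cast
          ring
  rw [abs_le]
  constructor <;> nlinarith

lemma pow_dvd_lcm {p k : ℕ} (hp : p.Prime) (hk : 0 < k) (s : Finset ℕ) (h : p ^ k ∣ s.lcm N) :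
    ∃ m ∈ s, p ^ k ∣ N m := by
  classical
  induction s using Finset.induction_on with
  | empty =>
    exfalso
    rw [Finset.lcm_empty] at h
    have := Nat.le_of_dvd one_pos h
    have := Nat.one_lt_pow hk.ne' hp.one_lt
    omega
  | insert a s ha ih =>
    have hs0 : s.lcm N ≠ 0 := by
      rw [Ne, Finset.lcm_eq_zero_iff]
      rintro ⟨m, -, hm⟩
      exact (N_pos m).ne' hm
    rw [Finset.lcm_insert] at h
    have h' : p ^ k ∣ Nat.lcm (N a) (s.lcm N) := h
    have hl0 : Nat.lcm (N a) (s.lcm N) ≠ 0 := Nat.lcm_ne_zero (N_pos a).ne' hs0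
    rw [hp.pow_dvd_iff_le_factorization hl0, Nat.factorization_lcm (N_pos a).ne' hs0, Finsupp.sup_apply,
      le_sup_iff] at h'
    rcases h' with h1 | h1
    · exact ⟨a, mem_insert_self _ _, (hp.pow_dvd_iff_le_factorization (N_pos a).ne').2 h1⟩
    · obtain ⟨m, hm, hm'⟩ := ih ((hp.pow_dvd_iff_le_factorization hs0).2 h1)
      exact ⟨m, mem_insert_of_mem hm, hm'⟩

/-- **Distinct prime divisors.** -/
theorem distinct (X : ℕ) : ∃ E : Finset ℕ, (E.card : ℝ) ≤ 16 * (X : ℝ) ^ (3 / 4 : ℝ) ∧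
    ∃ f : ℕ → ℕ, (∀ m ∈ Icc 1 X \ E, (f m).Prime ∧ f m ∣ N m) ∧ Set.InjOn f ↑(Icc 1 X \ E) := by
  classical
  have hch : ∀ p : ℕ, ∃ m : ℕ, p ∈ (L X).primeFactors →
      (m ∈ Icc 1 X ∧ p ^ ((L X).factorization p) ∣ N m) := by
    intro p
    by_cases hp : p ∈ (L X).primeFactors
    · have hpp := Nat.prime_of_mem_primeFactors hp
      have hk : 0 < (L X).factorization p :=
        hpp.factorization_pos_of_dvd (L_pos X).ne' (Nat.dvd_of_mem_primeFactors hp)
      obtain ⟨m, hm, hm'⟩ := pow_dvd_lcm hpp hk (Icc 1 X) (Nat.ordProj_dvd (L X) p)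
      exact ⟨m, fun _ => ⟨hm, hm'⟩⟩
    · exact ⟨0, fun h => absurd h hp⟩
  choose g hg using hch
  set I := (L X).primeFactors.image g with hI
  have hIX : I ⊆ Icc 1 X := by
    intro m hm
    rw [hI, mem_image] at hm
    obtain ⟨p, hp, rfl⟩ := hm
    exact (hg p hp).1
  have hinv : ∀ m : ℕ, ∃ p : ℕ, m ∈ I → (p ∈ (L X).primeFactors ∧ g p = m) := by
    intro m
    by_cases hm : m ∈ I
    · rw [hI, mem_image] at hm
      obtain ⟨p, hp, hpm⟩ := hm
      exact ⟨p, fun _ => ⟨hp, hpm⟩⟩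
    · exact ⟨0, fun h => absurd h hm⟩
  choose f hf using hinv
  have hlog : Real.log (L X) ≤ ∑ m ∈ I, Real.log (N m) := by
    rw [Real.log_nat_eq_sum_factorization, Finsupp.sum, Nat.support_factorization]
    have h1 : ∀ p ∈ (L X).primeFactors, ((L X).factorization p : ℝ) * Real.log p ≤
        ((N (g p)).factorization p : ℝ) * Real.log p := by
      intro p hp
      have hpp := Nat.prime_of_mem_primeFactors hp
      refine mul_le_mul_of_nonneg_right ?_ (Real.log_nonneg (by exact_mod_cast hpp.one_lt.le))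
      exact_mod_cast (hpp.pow_dvd_iff_le_factorization (N_pos _).ne').1 (hg p hp).2
    refine (sum_le_sum h1).trans ?_
    rw [← sum_fiberwise_of_maps_to (s := (L X).primeFactors) (t := I) (g := g)
      (fun p hp => mem_image_of_mem g hp)]
    refine sum_le_sum fun m hm => ?_
    rw [Real.log_nat_eq_sum_factorization, Finsupp.sum, Nat.support_factorization]
    have h2 : ∑ p ∈ (L X).primeFactors with g p = m, ((N (g p)).factorization p : ℝ) * Real.log p =
        ∑ p ∈ (L X).primeFactors with g p = m, ((N m).factorization p : ℝ) * Real.log p := by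
      refine sum_congr rfl fun p hp => ?_
      rw [mem_filter] at hp
      rw [hp.2]
    rw [h2]
    refine sum_le_sum_of_subset_of_nonneg ?_ fun p hp _ => ?_
    · intro p hp
      rw [mem_filter] at hp
      have hpp := Nat.prime_of_mem_primeFactors hp.1
      have hk : 0 < (L X).factorization p :=
        hpp.factorization_pos_of_dvd (L_pos X).ne' (Nat.dvd_of_mem_primeFactors hp.1)
      refine Nat.mem_primeFactors.2 ⟨hpp, ?_, (N_pos m).ne'⟩
      have h3 := (hg p hp.1).2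
      rw [hp.2] at h3
      exact (dvd_pow_self p hk.ne').trans h3
    · have hpp := Nat.prime_of_mem_primeFactors hp
      exact mul_nonneg (by positivity) (Real.log_nonneg (by exact_mod_cast hpp.one_lt.le))
  refine ⟨Icc 1 X \ I, ?_, f, ?_, ?_⟩
  · set E := Icc 1 X \ I with hE
    have h1 : ∑ m ∈ E, Real.log (N m) ≤ 170 * (X : ℝ) ^ (3 / 2 : ℝ) := by
      have h2 := sum_log X
      have h3 := sum_sdiff (f := fun m => Real.log (N m)) hIX
      rw [← hE] at h3
      linarith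
    rcases Nat.eq_zero_or_pos X with hX | hX
    · have : E = ∅ := by
        rw [hE, hX]; simp
      rw [this]
      simp only [card_empty, CharP.cast_eq_zero]
      positivity
    have hX1 : (0 : ℝ) < X := by exact_mod_cast hX
    set Y : ℝ := (X : ℝ) ^ (3 / 4 : ℝ) with hY
    have hY0 : 0 < Y := Real.rpow_pos_of_pos hX1 _
    have hYY : (X : ℝ) ^ (3 / 2 : ℝ) = Y * Y := by
      rw [hY, ← Real.rpow_add hX1]; norm_num
    rw [hYY] at h1
    have hE1 : ((E.filter (fun m : ℕ => (m : ℝ) ≤ 7.5 * Y)).card : ℝ) ≤ 7.5 * Y := by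
      have h2 : (E.filter (fun m : ℕ => (m : ℝ) ≤ 7.5 * Y)).card ≤ ⌊7.5 * Y⌋₊ := by
        calc _ ≤ (Icc 1 ⌊7.5 * Y⌋₊).card := by
              apply card_le_card
              intro m hm
              rw [mem_filter, hE, mem_sdiff, mem_Icc] at hm
              exact mem_Icc.2 ⟨hm.1.1.1, Nat.le_floor hm.2⟩
          _ = _ := by simp
      exact (Nat.cast_le.2 h2).trans (Nat.floor_le (by positivity))
    have hE2 : ((E.filter (fun m : ℕ => ¬ (m : ℝ) ≤ 7.5 * Y)).card : ℝ) ≤ 8 * Y := by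
      have h2 : ((E.filter (fun m : ℕ => ¬ (m : ℝ) ≤ 7.5 * Y)).card : ℝ) * (22.5 * Y) ≤ 170 * (Y * Y) := by
        calc _ = ∑ m ∈ E.filter (fun m : ℕ => ¬ (m : ℝ) ≤ 7.5 * Y), (22.5 * Y) := by
              rw [sum_const, nsmul_eq_mul]
          _ ≤ ∑ m ∈ E.filter (fun m : ℕ => ¬ (m : ℝ) ≤ 7.5 * Y), Real.log (N m) := by
              refine sum_le_sum fun m hm => ?_
              rw [mem_filter, not_le] at hm
              have := logN3 m
              linarith [hm.2]
          _ ≤ ∑ m ∈ E, Real.log (N m) := by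
              refine sum_le_sum_of_subset_of_nonneg (filter_subset _ _) fun m _ _ => ?_
              have := logN3 m
              have h3 : (0 : ℝ) ≤ m := by positivity
              linarith
          _ ≤ _ := h1
      by_contra hcon
      rw [not_le] at hcon
      nlinarith [mul_lt_mul_of_pos_right hcon (show 0 < 22.5 * Y by positivity), mul_pos hY0 hY0]
    have h3 : E.card = (E.filter (fun m : ℕ => (m : ℝ) ≤ 7.5 * Y)).card +
        (E.filter (fun m : ℕ => ¬ (m : ℝ) ≤ 7.5 * Y)).card := by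
      rw [card_filter_add_card_filter_not]
    rw [h3]
    push_cast
    linarith
  · intro m hm
    rw [Finset.sdiff_sdiff_eq_self hIX] at hm
    obtain ⟨h1, h2⟩ := hf m hm
    have hpp := Nat.prime_of_mem_primeFactors h1
    have hk : 0 < (L X).factorization (f m) :=
      hpp.factorization_pos_of_dvd (L_pos X).ne' (Nat.dvd_of_mem_primeFactors h1)
    have h3 := (hg _ h1).2
    rw [h2] at h3
    exact ⟨hpp, (dvd_pow_self _ hk.ne').trans h3⟩
  · intro m hm n hn hmn
    rw [Finset.sdiff_sdiff_eq_self hIX] at hm hn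
    rw [← (hf m hm).2, ← (hf n hn).2, hmn]

/-- a term divides another term only if the index of the latter is much larger -/
theorem dvd_index (m n : ℕ) (hmn : m ≠ n) (h : N m ∣ N n) : ((m : ℝ) - 1) ^ 2 ≤ 22 * n := by
  have hlt : m < n := by
    rcases lt_or_gt_of_ne hmn with h1 | h1
    · exact h1
    · exfalso
      have h2 := Nat.le_of_dvd (N_pos n) h
      have h3 : N n < N m := by
        have : StrictMono N := by
          refine strictMono_nat_of_lt_succ fun k => ?_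
          unfold N
          have h4 : (sol k).1 < (sol (k + 1)).1 := by
            have h5 : 0 < (sol k).1 := by
              have := pell k
              by_contra h6
              have h7 : (sol k).1 = 0 := by omega
              rw [h7] at this
              omega
            simp only [sol]
            omega
          have := Nat.pow_lt_pow_left h4 (two_ne_zero)
          omega
        exact this h1
      omega
  have h1 := gcd_le n m hlt
  rw [Nat.gcd_eq_right h] at h1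
  have h2 := logN3 m
  have hN : (0 : ℝ) < N m := by exact_mod_cast N_pos m
  have h3 := Real.log_le_log hN h1
  rw [Real.log_mul (by norm_num) (Real.exp_pos _).ne', Real.log_exp] at h3
  have h9 : Real.log 9 ≤ 3 := by
    rw [Real.log_le_iff_le_exp (by norm_num)]
    have e3 : Real.exp 3 = Real.exp 1 ^ 3 := by rw [← Real.exp_nat_mul]; norm_num
    rw [e3]
    have h2 := Real.exp_one_gt_d9
    calc (9 : ℝ) ≤ 2.7 ^ 3 := by norm_num
      _ ≤ Real.exp 1 ^ 3 := pow_le_pow_left₀ (by norm_num) (by linarith) 3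
  have h4 : √((n + m : ℕ) : ℝ) + √((n - m : ℕ) : ℝ) ≤ 2 * √(n : ℝ) := by
    have e1 : √((n + m : ℕ) : ℝ) ^ 2 = n + m := by
      rw [Real.sq_sqrt (by positivity)]; push_cast; ring
    have e2 : √((n - m : ℕ) : ℝ) ^ 2 = n - m := by
      rw [Real.sq_sqrt (by positivity), Nat.cast_sub hlt.le]
    have e3 : √(n : ℝ) ^ 2 = n := Real.sq_sqrt (by positivity)
    have h5 := Real.sqrt_nonneg ((n + m : ℕ) : ℝ)
    have h6 := Real.sqrt_nonneg ((n - m : ℕ) : ℝ)
    have h7 := Real.sqrt_nonneg (n : ℝ)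
    refine abs_le_of_sq_le_sq' ?_ (by positivity) |>.2
    nlinarith [sq_nonneg (√((n + m : ℕ) : ℝ) - √((n - m : ℕ) : ℝ))]
  have h5 : 3 * ((m : ℝ) - 1) ≤ 14 * √(n : ℝ) := by linarith
  have h7 := Real.sqrt_nonneg (n : ℝ)
  have e3 : √(n : ℝ) ^ 2 = n := Real.sq_sqrt (by positivity)
  rcases Nat.eq_zero_or_pos m with h0 | h0
  · have hn1 : (1 : ℝ) ≤ n := by exact_mod_cast (by omega : 1 ≤ n)
    rw [h0]
    norm_num
    linarith
  · have h8 : (0 : ℝ) ≤ (m : ℝ) - 1 := by
      have : (1 : ℝ) ≤ m := by exact_mod_cast h0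
      linarith
    nlinarith

end Pool.Agent.K9h50.PG
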