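import Pool.Agent.K9h50.PG.Basic

/-!
# The greatest common divisor of two terms
-/

set_option autoImplicit false

open Finset

namespace Pool.Agent.K9h50.PG

lemma three_dvd (m : ℕ) (h : 3 ∣ N m) : 9 ∣ N m ∧ ¬ 27 ∣ N m := by
  rw [N_eq] at h ⊢
  have h1 : 3 ∣ (sol m).2 := by
    have h2 : 3 ∣ 64 * (sol m).2 ^ 2 := (Nat.dvd_add_left (by norm_num : 3 ∣ 9)).1 h
    have h3 : 3 ∣ (sol m).2 ^ 2 := (Nat.Coprime.dvd_mul_left (by norm_num)).1 h2
    exact Nat.Prime.dvd_of_dvd_pow Nat.prime_three h3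
  obtain ⟨k, hk⟩ := h1
  rw [hk]
  refine ⟨⟨64 * k ^ 2 + 1, by ring⟩, fun h => ?_⟩
  have h4 : 3 ∣ 64 * k ^ 2 + 1 := by
    have h5 : 9 * 3 ∣ 9 * (64 * k ^ 2 + 1) := by
      convert h using 1
      ring
    exact (Nat.mul_dvd_mul_iff_left (by norm_num)).1 h5
  have h6 : k % 3 = 0 ∨ k % 3 = 1 ∨ k % 3 = 2 := by omega
  have h7 : (64 * k ^ 2 + 1) % 3 = 0 := Nat.mod_eq_zero_of_dvd h4
  rcases h6 with h6 | h6 | h6 <;> simp [Nat.add_mod, Nat.mul_mod, Nat.pow_mod, h6] at h7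

lemma not_27 (m : ℕ) : ¬ 27 ∣ N m := fun h =>
  (three_dvd m ((by norm_num : 3 ∣ 27).trans h)).2 h

/-- the root of `8` modulo a divisor of `N_m` prime to `3` -/
lemma root (q m : ℕ) (hq : q ∣ N m) (h3 : Nat.Coprime 3 q) :
    ∃ w : ZMod q, w ^ 2 = 8 ∧ ((3 + w) ^ 2) ^ m = -2 := by
  have H1 : 8 * ((sol m).1 : ZMod q) ^ 2 + 1 = 0 := by
    have := (ZMod.natCast_eq_zero_iff (N m) q).2 hq
    rw [N] at this
    exact_mod_cast this
  have H2 : 64 * ((sol m).2 : ZMod q) ^ 2 + 9 = 0 := by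
    have := (ZMod.natCast_eq_zero_iff (N m) q).2 hq
    rw [N_eq] at this
    exact_mod_cast this
  obtain ⟨κ, H3⟩ : ∃ κ : ZMod q, 3 * κ = 1 := ⟨((3 : ℕ) : ZMod q)⁻¹, by
    have := ZMod.coe_mul_inv_eq_one (n := q) 3 h3
    exact_mod_cast this⟩
  set d : ZMod q := ((sol m).1 : ZMod q) with hd
  set b : ZMod q := ((sol m).2 : ZMod q) with hb
  have hw : (-64 * d * b * κ) ^ 2 = 8 := by
    linear_combination 8 * κ ^ 2 * 64 * b ^ 2 * H1 - 8 * κ ^ 2 * H2 + 8 * (3 * κ + 1) * H3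
  refine ⟨-64 * d * b * κ, hw, ?_⟩
  rw [← pow_mul, mul_comm 2 m, pow_mul, pow_eq _ hw m, ← hd, ← hb]
  set w : ZMod q := -64 * d * b * κ with hww
  have h8 : 8 * ((d + b * w) ^ 2 + 2) = 0 := by
    have e1 : (d + b * w) ^ 2 = d ^ 2 + 8 * b ^ 2 + 2 * d * b * w := by
      linear_combination b ^ 2 * hw
    have e2 : 2 * d * b * w = -128 * d ^ 2 * b ^ 2 * κ := by rw [hww]; ring
    rw [e1, e2]
    linear_combination H1 + H2 - 6 * H3 - 128 * κ * b ^ 2 * H1 + 2 * κ * H2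
  have h9 : (d + b * w) ^ 2 + 2 = 0 := by
    linear_combination ((d + b * w) ^ 2 + 2) * H1 - d ^ 2 * h8
  linear_combination h9

lemma uv {q : ℕ} {w : ZMod q} (hw : w ^ 2 = 8) : (3 + w) ^ 2 * (3 - w) ^ 2 = 1 := by
  rw [← mul_pow]
  have : (3 + w) * (3 - w) = 1 := by linear_combination -hw
  rw [this, one_pow]

/-- the two possible values of `u ^ n`, `u = (3 + √8) ^ 2`, modulo divisors of `N_n` -/
lemma quad {q : ℕ} {w : ZMod q} (hw : w ^ 2 = 8) (n : ℕ) (hq : q ∣ N n) :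
    (2 * ((3 + w) ^ 2) ^ n + 1) * (((3 + w) ^ 2) ^ n + 2) = 0 := by
  have H1 : 8 * ((sol n).1 : ZMod q) ^ 2 + 1 = 0 := by
    have := (ZMod.natCast_eq_zero_iff (N n) q).2 hq
    rw [N] at this
    exact_mod_cast this
  have hp := congrArg (Nat.cast : ℕ → ZMod q) (pell n)
  push_cast at hp
  have e1 := pow_eq w hw n
  have e2 := pow_eq' w hw n
  have e4 : ((3 + w) ^ 2) ^ n + ((3 - w) ^ 2) ^ n = 4 * ((sol n).1 : ZMod q) ^ 2 - 2 := by
    rw [← pow_mul, ← pow_mul, mul_comm 2 n, pow_mul, pow_mul, e1, e2]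
    linear_combination - 2 * hp + 2 * ((sol n).2 : ZMod q) ^ 2 * hw
  have e5 : ((3 + w) ^ 2) ^ n * ((3 - w) ^ 2) ^ n = 1 := by rw [← mul_pow, uv hw, one_pow]
  generalize ((3 + w) ^ 2) ^ n = U at *
  generalize ((3 - w) ^ 2) ^ n = V at *
  linear_combination 2 * U * e4 + U * H1 - 2 * e5

lemma same {q : ℕ} {w : ZMod q} (hw : w ^ 2 = 8) {m n : ℕ} (hnm : n ≤ m)
    (hm : ((3 + w) ^ 2) ^ m = -2) (hn : ((3 + w) ^ 2) ^ n = -2) : ((3 + w) ^ 2) ^ (m - n) = 1 := by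
  have e5 : ((3 + w) ^ 2) ^ n * ((3 - w) ^ 2) ^ n = 1 := by rw [← mul_pow, uv hw, one_pow]
  have e6 : ((3 + w) ^ 2) ^ m = ((3 + w) ^ 2) ^ n * ((3 + w) ^ 2) ^ (m - n) := by
    rw [← pow_add]; congr 1; omega
  calc ((3 + w) ^ 2) ^ (m - n) = (((3 + w) ^ 2) ^ n * ((3 + w) ^ 2) ^ (m - n)) * ((3 - w) ^ 2) ^ n := by
        linear_combination (-((3 + w) ^ 2) ^ (m - n)) * e5
    _ = ((3 + w) ^ 2) ^ n * ((3 - w) ^ 2) ^ n := by rw [← e6, hm, hn]
    _ = 1 := e5

/-- the bound for a common divisor prime to `3` -/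
lemma coprime_bound (q m n : ℕ) (hnm : n < m) (hm : q ∣ N m) (hn : q ∣ N n) (h3 : Nat.Coprime 3 q) :
    (q : ℝ) ≤ Real.exp (7 * √((m - n : ℕ) : ℝ)) * Real.exp (7 * √((m + n : ℕ) : ℝ)) := by
  obtain ⟨w, hw, hwm⟩ := root q m hm h3
  obtain ⟨Z, hZ⟩ := ZMod.intCast_surjective (((3 + w) ^ 2) ^ n)
  have h0 := quad hw n hn
  rw [← hZ] at h0
  have h1 : (q : ℤ) ∣ (2 * Z + 1) * (Z + 2) := by
    rw [← CharP.intCast_eq_zero_iff (ZMod q) q]
    exact_mod_cast h0
  have h2 : q ∣ (2 * Z + 1).natAbs * (Z + 2).natAbs := by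
    rw [← Int.natAbs_mul]
    exact Int.natCast_dvd.1 h1
  have hq0 : 0 < q := Nat.pos_of_dvd_of_pos hm (by unfold N; omega)
  set x := Nat.gcd q (Z + 2).natAbs with hx
  set y := Nat.gcd q (2 * Z + 1).natAbs with hy
  have h4 : q ∣ y * x := by
    have := Nat.gcd_mul_right_dvd_mul_gcd q (2 * Z + 1).natAbs (Z + 2).natAbs
    rwa [Nat.gcd_eq_left h2] at this
  have hxq : x ∣ q := Nat.gcd_dvd_left _ _
  have hyq : y ∣ q := Nat.gcd_dvd_left _ _
  have hx0 : 0 < x := Nat.pos_of_dvd_of_pos hxq hq0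
  have hy0 : 0 < y := Nat.pos_of_dvd_of_pos hyq hq0
  have bx : (x : ℝ) ≤ Real.exp (7 * √((m - n : ℕ) : ℝ)) := by
    set f := ZMod.castHom hxq (ZMod x) with hf
    have w1 : (f w) ^ 2 = 8 := by rw [← map_pow, hw]; exact map_ofNat f 8
    have wm : ((3 + f w) ^ 2) ^ m = -2 := by
      have := congrArg f hwm
      rw [map_pow, map_pow, map_add, map_neg] at this
      have e3 : f 3 = 3 := map_ofNat f 3
      have e2 : f 2 = 2 := map_ofNat f 2
      rwa [e3, e2] at this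
    have wn : ((3 + f w) ^ 2) ^ n = -2 := by
      have h5 := congrArg f hZ
      have h6 : ((Z + 2 : ℤ) : ZMod x) = 0 := by
        rw [CharP.intCast_eq_zero_iff (ZMod x) x]
        exact Int.natCast_dvd.2 (Nat.gcd_dvd_right _ _)
      push_cast at h6
      have e3 : f 3 = 3 := map_ofNat f 3
      rw [map_intCast, map_pow, map_pow, map_add, e3] at h5
      rw [← h5]
      linear_combination h6
    exact size x (f w) w1 m (m - n) (by omega) wm (same w1 hnm.le wm wn)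
  have byy : (y : ℝ) ≤ Real.exp (7 * √((m + n : ℕ) : ℝ)) := by
    set f := ZMod.castHom hyq (ZMod y) with hf
    have w1 : (f w) ^ 2 = 8 := by rw [← map_pow, hw]; exact map_ofNat f 8
    have wm : ((3 + f w) ^ 2) ^ m = -2 := by
      have := congrArg f hwm
      rw [map_pow, map_pow, map_add, map_neg] at this
      have e3 : f 3 = 3 := map_ofNat f 3
      have e2 : f 2 = 2 := map_ofNat f 2
      rwa [e3, e2] at this
    have wn : 2 * ((3 + f w) ^ 2) ^ n = -1 := by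
      have h5 := congrArg f hZ
      have h6 : ((2 * Z + 1 : ℤ) : ZMod y) = 0 := by
        rw [CharP.intCast_eq_zero_iff (ZMod y) y]
        exact Int.natCast_dvd.2 (Nat.gcd_dvd_right _ _)
      push_cast at h6
      have e3 : f 3 = 3 := map_ofNat f 3
      rw [map_intCast, map_pow, map_pow, map_add, e3] at h5
      rw [← h5]
      linear_combination h6
    refine size y (f w) w1 m (m + n) (by omega) wm ?_
    rw [pow_add, wm]
    linear_combination -wn
  have h5 : (q : ℝ) ≤ x * y := by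
    exact_mod_cast (Nat.le_of_dvd (Nat.mul_pos hx0 hy0) (by rwa [mul_comm] at h4))
  exact h5.trans (mul_le_mul bx byy (by positivity) (Real.exp_pos _).le)

/-- **The greatest common divisor of two terms.** -/
theorem gcd_le (m n : ℕ) (hnm : n < m) :
    (Nat.gcd (N m) (N n) : ℝ) ≤
      9 * Real.exp (7 * √((m + n : ℕ) : ℝ) + 7 * √((m - n : ℕ) : ℝ)) := by
  set D := Nat.gcd (N m) (N n) with hD
  have hm : D ∣ N m := Nat.gcd_dvd_left _ _
  have hn : D ∣ N n := Nat.gcd_dvd_right _ _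
  rw [Real.exp_add]
  by_cases h3 : 3 ∣ D
  · have h9 : 9 ∣ D := Nat.dvd_gcd (three_dvd m (h3.trans hm)).1 (three_dvd n (h3.trans hn)).1
    obtain ⟨q, hq⟩ := h9
    have hqD : q ∣ D := ⟨9, by rw [hq]; ring⟩
    have h3q : Nat.Coprime 3 q := by
      rw [Nat.Prime.coprime_iff_not_dvd Nat.prime_three]
      rintro ⟨k, hk⟩
      have h27 : 27 ∣ D := ⟨k, by rw [hq, hk]; ring⟩
      exact not_27 m (h27.trans hm)
    have := coprime_bound q m n hnm (hqD.trans hm) (hqD.trans hn) h3q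
    rw [hq, Nat.cast_mul, Nat.cast_ofNat]
    nlinarith
  · have h3q : Nat.Coprime 3 D := (Nat.Prime.coprime_iff_not_dvd Nat.prime_three).2 h3
    have := coprime_bound D m n hnm hm hn h3q
    have h0 : 0 ≤ Real.exp (7 * √((m + n : ℕ) : ℝ)) * Real.exp (7 * √((m - n : ℕ) : ℝ)) := by positivity
    nlinarith

/-! ### prime powers -/

lemma classes (p k n : ℕ) (hp : p.Prime) (h3 : p ≠ 3) {w : ZMod (p ^ k)} (hw : w ^ 2 = 8)
    (hq : p ^ k ∣ N n) : ((3 + w) ^ 2) ^ n = -2 ∨ 2 * ((3 + w) ^ 2) ^ n = -1 := by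
  obtain ⟨Z, hZ⟩ := ZMod.intCast_surjective (((3 + w) ^ 2) ^ n)
  have h0 := quad hw n hq
  rw [← hZ] at h0 ⊢
  have h1 : ((p : ℤ) ^ k) ∣ (2 * Z + 1) * (Z + 2) := by
    have : ((p ^ k : ℕ) : ℤ) ∣ (2 * Z + 1) * (Z + 2) := by
      rw [← CharP.intCast_eq_zero_iff (ZMod (p ^ k)) (p ^ k)]
      exact_mod_cast h0
    exact_mod_cast this
  have hpi : Prime (p : ℤ) := Nat.prime_iff_prime_int.1 hp
  by_cases h2 : (p : ℤ) ∣ 2 * Z + 1
  · right
    have h4 : ¬ (p : ℤ) ∣ Z + 2 := by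
      intro h5
      have h6 : (p : ℤ) ∣ 3 := by
        have := dvd_sub (h5.mul_left 2) h2
        have e : 2 * (Z + 2) - (2 * Z + 1) = 3 := by ring
        rwa [e] at this
      have h7 : p ∣ 3 := by exact_mod_cast h6
      exact h3 ((Nat.prime_dvd_prime_iff_eq hp Nat.prime_three).1 h7)
    have h5 : ((p : ℤ) ^ k) ∣ 2 * Z + 1 := by
      rw [mul_comm] at h1
      exact hpi.pow_dvd_of_dvd_mul_left k h4 h1
    have h6 : ((2 * Z + 1 : ℤ) : ZMod (p ^ k)) = 0 := by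
      rw [CharP.intCast_eq_zero_iff (ZMod (p ^ k)) (p ^ k)]
      exact_mod_cast h5
    push_cast at h6
    linear_combination h6
  · left
    have h5 : ((p : ℤ) ^ k) ∣ Z + 2 := hpi.pow_dvd_of_dvd_mul_left k h2 h1
    have h6 : ((Z + 2 : ℤ) : ZMod (p ^ k)) = 0 := by
      rw [CharP.intCast_eq_zero_iff (ZMod (p ^ k)) (p ^ k)]
      exact_mod_cast h5
    push_cast at h6
    linear_combination h6

lemma card_class (X r : ℕ) (S : Finset ℕ) (hS : S ⊆ Icc 1 X)
    (h : ∀ x ∈ S, ∀ y ∈ S, x ≡ y [MOD r]) : S.card ≤ X / r + 1 := by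
  rw [← card_range (X / r + 1)]
  apply Finset.card_le_card_of_injOn (fun x => x / r)
  · intro x hx
    have := mem_Icc.1 (hS hx)
    exact mem_coe.2 (mem_range.2 (Nat.lt_succ_of_le (Nat.div_le_div_right this.2)))
  · intro x hx y hy hxy
    have h1 := h x hx y hy
    have h2 := Nat.div_add_mod x r
    have h3 := Nat.div_add_mod y r
    simp only at hxy
    rw [← h2, ← h3, hxy, h1]

/-- prime powers which divide two terms -/
lemma main_q (X p k : ℕ) (hp : p.Prime) (h3 : p ≠ 3)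
    (hc : 2 ≤ ((Icc 1 X).filter (fun m => p ^ k ∣ N m)).card) :
    ∃ a c : ℕ, (a ≠ 0 ∨ c ≠ 0) ∧ a ≤ Nat.sqrt (2 * X) ∧ c ≤ Nat.sqrt (2 * X) ∧
      ((p ^ k : ℕ) : ℤ) ∣ T a c ∧
      ((((Icc 1 X).filter (fun m => p ^ k ∣ N m)).card : ℝ) - 1) * ((max a c : ℕ) : ℝ) ^ 2 ≤ 4 * X := by
  classical
  set M := (Icc 1 X).filter (fun m => p ^ k ∣ N m) with hM
  obtain ⟨m1, hm1, m2, hm2, hne⟩ := Finset.one_lt_card.1 (by omega : 1 < M.card)
  rw [hM, mem_filter, mem_Icc] at hm1 hm2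
  have hcop : Nat.Coprime 3 (p ^ k) :=
    Nat.Coprime.pow_right k ((Nat.coprime_primes Nat.prime_three hp).2 (Ne.symm h3))
  obtain ⟨w, hw, hwm⟩ := root (p ^ k) m1 hm1.2 hcop
  set u : (ZMod (p ^ k))ˣ := ⟨(3 + w) ^ 2, (3 - w) ^ 2, uv hw, by rw [mul_comm]; exact uv hw⟩ with hu
  have huv : (u : ZMod (p ^ k)) = (3 + w) ^ 2 := rfl
  set r := orderOf u with hr
  have hcl : ∀ m, p ^ k ∣ N m → u ^ m = u ^ m1 ∨ u ^ m * u ^ m1 = 1 := by
    intro m hm
    rcases classes p k m hp h3 hw hm with h | h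
    · left
      apply Units.ext
      rw [Units.val_pow_eq_pow_val, Units.val_pow_eq_pow_val, huv, h, hwm]
    · right
      apply Units.ext
      rw [Units.val_mul, Units.val_pow_eq_pow_val, Units.val_pow_eq_pow_val, huv, hwm, Units.val_one]
      linear_combination -h
  have hr2 : 0 < r ∧ r ≤ 2 * X := by
    rcases hcl m2 hm2.2 with h | h
    · rcases Nat.lt_or_ge m1 m2 with hlt | hge
      · have h4 : u ^ (m2 - m1) = 1 := by rw [pow_sub _ hlt.le, h, mul_inv_cancel]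
        have h5 := orderOf_dvd_of_pow_eq_one h4
        exact ⟨Nat.pos_of_dvd_of_pos h5 (by omega),
          (Nat.le_of_dvd (by omega) h5).trans (by omega)⟩
      · have hlt : m2 < m1 := lt_of_le_of_ne hge (Ne.symm hne)
        have h4 : u ^ (m1 - m2) = 1 := by rw [pow_sub _ hlt.le, h, mul_inv_cancel]
        have h5 := orderOf_dvd_of_pow_eq_one h4
        exact ⟨Nat.pos_of_dvd_of_pos h5 (by omega),
          (Nat.le_of_dvd (by omega) h5).trans (by omega)⟩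
    · rw [← pow_add] at h
      have h5 := orderOf_dvd_of_pow_eq_one h
      exact ⟨Nat.pos_of_dvd_of_pos h5 (by omega),
        (Nat.le_of_dvd (by omega) h5).trans (by omega)⟩
  obtain ⟨hr0, hrX⟩ := hr2
  have hcard : M.card ≤ 2 * (X / r + 1) := by
    have hsub : M ⊆ (Icc 1 X).filter (fun m => u ^ m = u ^ m1) ∪
        (Icc 1 X).filter (fun m => u ^ m * u ^ m1 = 1) := by
      intro m hm
      rw [hM, mem_filter] at hm
      rcases hcl m hm.2 with h | h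
      · exact mem_union_left _ (mem_filter.2 ⟨hm.1, h⟩)
      · exact mem_union_right _ (mem_filter.2 ⟨hm.1, h⟩)
    have c1 := card_class X r ((Icc 1 X).filter (fun m => u ^ m = u ^ m1)) (filter_subset _ _)
      (by
        intro x hx y hy
        rw [mem_filter] at hx hy
        exact pow_eq_pow_iff_modEq.1 (hx.2.trans hy.2.symm))
    have c2 := card_class X r ((Icc 1 X).filter (fun m => u ^ m * u ^ m1 = 1)) (filter_subset _ _)
      (by
        intro x hx y hy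
        rw [mem_filter] at hx hy
        exact pow_eq_pow_iff_modEq.1 (mul_right_cancel (hx.2.trans hy.2.symm)))
    calc M.card ≤ _ := card_le_card hsub
      _ ≤ _ := card_union_le _ _
      _ ≤ 2 * (X / r + 1) := by omega
  obtain ⟨a, c, ha, hc', hac, hT⟩ := box (p ^ k) w hw m1 r hr0 hwm (by
    have := congrArg (Units.val) (pow_orderOf_eq_one u)
    rwa [Units.val_pow_eq_pow_val, huv] at this)
  refine ⟨a, c, hac, Nat.le_sqrt'.2 (ha.trans hrX), Nat.le_sqrt'.2 (hc'.trans hrX), hT, ?_⟩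
  have hmax : ((max a c : ℕ) : ℝ) ^ 2 ≤ r := by
    rcases max_choice a c with h | h <;> rw [h] <;> exact_mod_cast (by assumption)
  have hrr : (0 : ℝ) < r := by exact_mod_cast hr0
  have h5 : (M.card : ℝ) - 1 ≤ 4 * X / r := by
    have h6 : (M.card : ℝ) ≤ 2 * ((X / r : ℕ) + 1) := by exact_mod_cast hcard
    have h7 : ((X / r : ℕ) : ℝ) ≤ X / r := Nat.cast_div_le
    have h8 : (1 : ℝ) ≤ 2 * X / r := by
      rw [le_div_iff₀ hrr, one_mul]
      exact_mod_cast hrX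
    have h9 : 4 * (X : ℝ) / r = 2 * (X / r) + 2 * X / r := by ring
    rw [h9]
    linarith
  have h10 : (0 : ℝ) ≤ (M.card : ℝ) - 1 := by
    have : (2 : ℝ) ≤ M.card := by exact_mod_cast hc
    linarith
  calc ((M.card : ℝ) - 1) * ((max a c : ℕ) : ℝ) ^ 2 ≤ (4 * X / r) * r :=
        mul_le_mul h5 hmax (by positivity) (h10.trans h5)
    _ = 4 * X := by field_simp

end Pool.Agent.K9h50.PG
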