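import Pool.Agent.K9h50.PG.Gcd

/-!
# The least common multiple of the first terms, and their prime divisors
-/

set_option autoImplicit false

open Finset ArithmeticFunction

namespace Pool.Agent.K9h50.PG

lemma N_pos (m : ℕ) : 0 < N m := by unfold N; omega

/-- the sum over the boxes -/
lemma box_sum (H : ℕ) :
    ∑ x ∈ (range (H + 1) ×ˢ range (H + 1)).filter (fun x => x.1 ≠ 0 ∨ x.2 ≠ 0),
      (1 : ℝ) / ((max x.1 x.2 : ℕ) : ℝ) ≤ 4 * H := by
  classical
  have key : ∀ a ∈ range (H + 1), ∑ c ∈ range (H + 1),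
      (if c ≤ a ∧ 1 ≤ a then (1 : ℝ) / a else 0) ≤ if a = 0 then 0 else 2 := by
    intro a ha
    split_ifs with h0
    · subst h0
      simp
    · have ha1 : 1 ≤ a := by omega
      have ha' : (0 : ℝ) < a := by exact_mod_cast ha1
      rw [← sum_filter, sum_const, nsmul_eq_mul, mul_one_div, div_le_iff₀ ha']
      have h1 : ((range (H + 1)).filter (fun c => c ≤ a ∧ 1 ≤ a)).card ≤ a + 1 := by
        rw [← card_range (a + 1)]
        apply card_le_card
        intro c hc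
        rw [mem_filter] at hc
        exact mem_range.2 (by omega)
      have h2 : (((range (H + 1)).filter (fun c => c ≤ a ∧ 1 ≤ a)).card : ℝ) ≤ a + 1 := by
        exact_mod_cast h1
      have h3 : (1 : ℝ) ≤ a := by exact_mod_cast ha1
      linarith
  have key2 : ∑ a ∈ range (H + 1), (if a = 0 then (0 : ℝ) else 2) = 2 * H := by
    rw [sum_range_succ']
    simp [mul_comm]
  have e1 : ∑ a ∈ range (H + 1), ∑ c ∈ range (H + 1),
      (if c ≤ a ∧ 1 ≤ a then (1 : ℝ) / a else 0) ≤ 2 * H := by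
    rw [← key2]
    exact sum_le_sum key
  calc ∑ x ∈ (range (H + 1) ×ˢ range (H + 1)).filter (fun x => x.1 ≠ 0 ∨ x.2 ≠ 0),
      (1 : ℝ) / ((max x.1 x.2 : ℕ) : ℝ)
      ≤ ∑ x ∈ (range (H + 1) ×ˢ range (H + 1)).filter (fun x => x.1 ≠ 0 ∨ x.2 ≠ 0),
        ((if x.2 ≤ x.1 ∧ 1 ≤ x.1 then (1 : ℝ) / x.1 else 0) +
          (if x.1 ≤ x.2 ∧ 1 ≤ x.2 then (1 : ℝ) / x.2 else 0)) := by
        refine sum_le_sum fun x hx => ?_
        rw [mem_filter] at hx
        rcases le_total x.2 x.1 with h | h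
        · rw [max_eq_left h, if_pos (show x.2 ≤ x.1 ∧ 1 ≤ x.1 by omega)]
          have : (0 : ℝ) ≤ (if x.1 ≤ x.2 ∧ 1 ≤ x.2 then (1 : ℝ) / x.2 else 0) := by
            split_ifs <;> positivity
          linarith
        · rw [max_eq_right h, if_pos (show x.1 ≤ x.2 ∧ 1 ≤ x.2 by omega)]
          have : (0 : ℝ) ≤ (if x.2 ≤ x.1 ∧ 1 ≤ x.1 then (1 : ℝ) / x.1 else 0) := by
            split_ifs <;> positivity
          linarith
    _ ≤ ∑ x ∈ range (H + 1) ×ˢ range (H + 1),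
        ((if x.2 ≤ x.1 ∧ 1 ≤ x.1 then (1 : ℝ) / x.1 else 0) +
          (if x.1 ≤ x.2 ∧ 1 ≤ x.2 then (1 : ℝ) / x.2 else 0)) := by
        refine sum_le_sum_of_subset_of_nonneg (filter_subset _ _) fun x _ _ => ?_
        split_ifs <;> positivity
    _ = ∑ a ∈ range (H + 1), ∑ c ∈ range (H + 1), (if c ≤ a ∧ 1 ≤ a then (1 : ℝ) / a else 0) +
        ∑ a ∈ range (H + 1), ∑ c ∈ range (H + 1), (if c ≤ a ∧ 1 ≤ a then (1 : ℝ) / a else 0) := by
        rw [sum_add_distrib, sum_product, sum_product_right]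
    _ ≤ 4 * H := by linarith

/-- the least common multiple of `N_1, ..., N_X` -/
def L (X : ℕ) : ℕ := (Icc 1 X).lcm N

lemma L_pos (X : ℕ) : 0 < L X := by
  apply Nat.pos_of_ne_zero
  rw [L, Ne, Finset.lcm_eq_zero_iff]
  rintro ⟨m, -, hm⟩
  exact (N_pos m).ne' hm

/-- the numbers of the terms which are divisible by `q` -/
def cq (X q : ℕ) : ℕ := ((Icc 1 X).filter (fun m => q ∣ N m)).card

lemma cq_le (X q : ℕ) : cq X q ≤ X := by
  unfold cq
  calc _ ≤ (Icc 1 X).card := card_le_card (filter_subset _ _)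
    _ = X := by simp

lemma term_le (X q : ℕ) (hq : ∃ m ∈ Icc 1 X, q ∣ N m) :
    Λ q * ((cq X q : ℝ) - 1) ≤ (if q = 3 ∨ q = 9 then Real.log 3 * X else 0) +
      ∑ x ∈ (range (Nat.sqrt (2 * X) + 1) ×ˢ range (Nat.sqrt (2 * X) + 1)).filter
        (fun x => x.1 ≠ 0 ∨ x.2 ≠ 0),
        (if q ∣ (T x.1 x.2).natAbs then Λ q * (4 * X / ((max x.1 x.2 : ℕ) : ℝ) ^ 2) else 0) := by
  classical
  have hn1 : (0 : ℝ) ≤ (if q = 3 ∨ q = 9 then Real.log 3 * X else 0) := by
    split_ifs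
    · exact mul_nonneg (Real.log_nonneg (by norm_num)) (by positivity)
    · exact le_rfl
  have hn2 : ∀ x : ℕ × ℕ, (0 : ℝ) ≤ (if q ∣ (T x.1 x.2).natAbs then
      Λ q * (4 * X / ((max x.1 x.2 : ℕ) : ℝ) ^ 2) else 0) := by
    intro x
    split_ifs
    · exact mul_nonneg vonMangoldt_nonneg (by positivity)
    · exact le_rfl
  have hn3 := sum_nonneg (s := (range (Nat.sqrt (2 * X) + 1) ×ˢ range (Nat.sqrt (2 * X) + 1)).filter
        (fun x => x.1 ≠ 0 ∨ x.2 ≠ 0)) (fun x _ => hn2 x)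
  have hΛ : 0 ≤ Λ q := vonMangoldt_nonneg
  rcases Nat.lt_or_ge (cq X q) 2 with hc | hc
  · have h1 : (cq X q : ℝ) - 1 ≤ 0 := by
      have : (cq X q : ℝ) ≤ 1 := by exact_mod_cast (by omega : cq X q ≤ 1)
      linarith
    have h2 := mul_nonneg hΛ (neg_nonneg.2 h1)
    linarith
  by_cases h0 : Λ q = 0
  · rw [h0]
    simp only [zero_mul]
    rw [h0] at hn3
    simp only [zero_mul] at hn3
    linarith
  · obtain ⟨p, k, hp, hk, rfl⟩ := (isPrimePow_nat_iff q).1 (vonMangoldt_ne_zero_iff.1 h0)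
    by_cases h3 : p = 3
    · subst h3
      have hk2 : k ≤ 2 := by
        by_contra hk3
        obtain ⟨m, -, hm⟩ := hq
        exact not_27 m (((pow_dvd_pow 3 (by omega : 3 ≤ k)).trans hm))
      have hq' : 3 ^ k = 3 ∨ 3 ^ k = 9 := by
        have : k = 1 ∨ k = 2 := by omega
        rcases this with rfl | rfl <;> norm_num
      rw [if_pos hq']
      have hΛ3 : Λ (3 ^ k) = Real.log 3 := by
        rw [vonMangoldt_apply_pow hk.ne', vonMangoldt_apply_prime Nat.prime_three]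
        norm_num
      rw [hΛ3] at hn3 ⊢
      have h5 : (cq X (3 ^ k) : ℝ) - 1 ≤ X := by
        have : (cq X (3 ^ k) : ℝ) ≤ X := by exact_mod_cast cq_le X _
        linarith
      have h6 := mul_le_mul_of_nonneg_left h5 (Real.log_nonneg (by norm_num : (1 : ℝ) ≤ 3))
      linarith
    · obtain ⟨a, c, hac, ha, hc', hT, hb⟩ := main_q X p k hp h3 hc
      have h4 := single_le_sum (f := fun x : ℕ × ℕ => (if p ^ k ∣ (T x.1 x.2).natAbs then
        Λ (p ^ k) * (4 * X / ((max x.1 x.2 : ℕ) : ℝ) ^ 2) else 0))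
        (s := (range (Nat.sqrt (2 * X) + 1) ×ˢ range (Nat.sqrt (2 * X) + 1)).filter
        (fun x => x.1 ≠ 0 ∨ x.2 ≠ 0)) (fun x _ => hn2 x) (a := (a, c))
        (mem_filter.2 ⟨mem_product.2 ⟨mem_range.2 (by omega), mem_range.2 (by omega)⟩, hac⟩)
      simp only at h4
      rw [if_pos (Int.natCast_dvd.1 hT)] at h4
      have hmax : (0 : ℝ) < ((max a c : ℕ) : ℝ) := by
        have : 0 < max a c := by
          rcases hac with h | h
          · exact lt_max_of_lt_left (by omega)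
          · exact lt_max_of_lt_right (by omega)
        exact_mod_cast this
      have h5 : (cq X (p ^ k) : ℝ) - 1 ≤ 4 * X / ((max a c : ℕ) : ℝ) ^ 2 := by
        rw [le_div_iff₀ (by positivity)]
        exact hb
      have h6 := mul_le_mul_of_nonneg_left h5 hΛ
      linarith

/-- the sum of the logarithms and the logarithm of the least common multiple -/
lemma sum_log (X : ℕ) : ∑ m ∈ Icc 1 X, Real.log (N m) ≤ Real.log (L X) + 170 * (X : ℝ) ^ (3 / 2 : ℝ) := by
  classical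
  set Q := (Icc 1 X).biUnion (fun m => (N m).divisors) with hQ
  have hA : ∑ m ∈ Icc 1 X, Real.log (N m) = ∑ q ∈ Q, Λ q * (cq X q : ℝ) := by
    have h1 : ∀ m ∈ Icc 1 X, Real.log (N m) = ∑ q ∈ Q, if q ∣ N m then Λ q else 0 := by
      intro m hm
      rw [← vonMangoldt_sum, ← sum_filter]
      congr 1
      ext q
      rw [Nat.mem_divisors, mem_filter, hQ, mem_biUnion]
      constructor
      · rintro ⟨h1, h2⟩
        exact ⟨⟨m, hm, Nat.mem_divisors.2 ⟨h1, h2⟩⟩, h1⟩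
      · rintro ⟨-, h2⟩
        exact ⟨h2, (N_pos m).ne'⟩
    rw [sum_congr rfl h1, sum_comm]
    refine sum_congr rfl fun q _ => ?_
    rw [← sum_filter, sum_const, nsmul_eq_mul, mul_comm, cq]
  have hB : ∑ q ∈ Q, Λ q ≤ Real.log (L X) := by
    rw [← vonMangoldt_sum]
    refine sum_le_sum_of_subset_of_nonneg ?_ fun q _ _ => vonMangoldt_nonneg
    intro q hq
    rw [hQ, mem_biUnion] at hq
    obtain ⟨m, hm, hq⟩ := hq
    exact Nat.mem_divisors.2 ⟨(Nat.dvd_of_mem_divisors hq).trans (dvd_lcm hm), (L_pos X).ne'⟩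
  set H := Nat.sqrt (2 * X) with hH
  set B := (range (H + 1) ×ˢ range (H + 1)).filter (fun x : ℕ × ℕ => x.1 ≠ 0 ∨ x.2 ≠ 0) with hBdef
  have hC : ∑ q ∈ Q, Λ q * ((cq X q : ℝ) - 1) ≤
      ∑ q ∈ Q, (if q = 3 ∨ q = 9 then Real.log 3 * X else 0) +
      ∑ q ∈ Q, ∑ x ∈ B, (if q ∣ (T x.1 x.2).natAbs then
        Λ q * (4 * X / ((max x.1 x.2 : ℕ) : ℝ) ^ 2) else 0) := by
    rw [← sum_add_distrib]
    refine sum_le_sum fun q hq => term_le X q ?_
    rw [hQ, mem_biUnion] at hq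
    obtain ⟨m, hm, hq⟩ := hq
    exact ⟨m, hm, Nat.dvd_of_mem_divisors hq⟩
  have hl3 : Real.log 3 ≤ 2 := by
    have := Real.log_le_sub_one_of_pos (show (0 : ℝ) < 3 by norm_num)
    linarith
  have hl30 : 0 ≤ Real.log 3 := Real.log_nonneg (by norm_num)
  have hD : ∑ q ∈ Q, (if q = 3 ∨ q = 9 then Real.log 3 * (X : ℝ) else 0) ≤ 4 * X := by
    rw [← sum_filter, sum_const, nsmul_eq_mul]
    have h1 : (Q.filter (fun q => q = 3 ∨ q = 9)).card ≤ 2 := by
      calc _ ≤ ({3, 9} : Finset ℕ).card := by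
            apply card_le_card
            intro q hq
            rw [mem_filter] at hq
            simpa using hq.2
        _ ≤ 2 := card_le_two
    have h2 : ((Q.filter (fun q => q = 3 ∨ q = 9)).card : ℝ) ≤ 2 := by exact_mod_cast h1
    have h3 : (0 : ℝ) ≤ X := by positivity
    calc _ ≤ 2 * (2 * (X : ℝ)) := mul_le_mul h2 (mul_le_mul_of_nonneg_right hl3 h3) (by positivity)
          (by norm_num)
      _ = 4 * X := by ring
  have hE : ∑ q ∈ Q, ∑ x ∈ B, (if q ∣ (T x.1 x.2).natAbs then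
        Λ q * (4 * (X : ℝ) / ((max x.1 x.2 : ℕ) : ℝ) ^ 2) else 0) ≤ 28 * (X : ℝ) * (4 * (H : ℝ)) := by
    rw [sum_comm]
    have h1 : ∀ x ∈ B, ∑ q ∈ Q, (if q ∣ (T x.1 x.2).natAbs then
        Λ q * (4 * X / ((max x.1 x.2 : ℕ) : ℝ) ^ 2) else 0) ≤
        28 * X * (1 / ((max x.1 x.2 : ℕ) : ℝ)) := by
      intro x hx
      rw [hBdef, mem_filter] at hx
      have hne := T_ne x.1 x.2 hx.2
      have hmax1 : 1 ≤ max x.1 x.2 := by
        rcases hx.2 with h | h
        · exact le_max_of_le_left (by omega)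
        · exact le_max_of_le_right (by omega)
      have hmax : (0 : ℝ) < ((max x.1 x.2 : ℕ) : ℝ) := by exact_mod_cast hmax1
      have h2 : ∑ q ∈ Q, (if q ∣ (T x.1 x.2).natAbs then
          Λ q * (4 * X / ((max x.1 x.2 : ℕ) : ℝ) ^ 2) else 0) =
          (∑ q ∈ Q.filter (fun q => q ∣ (T x.1 x.2).natAbs), Λ q) *
            (4 * X / ((max x.1 x.2 : ℕ) : ℝ) ^ 2) := by
        rw [← sum_filter, sum_mul]
      have h3 : ∑ q ∈ Q.filter (fun q => q ∣ (T x.1 x.2).natAbs), Λ q ≤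
          7 * ((max x.1 x.2 : ℕ) : ℝ) := by
        have h4 : ∑ q ∈ Q.filter (fun q => q ∣ (T x.1 x.2).natAbs), Λ q ≤
            Real.log ((T x.1 x.2).natAbs : ℕ) := by
          rw [← vonMangoldt_sum]
          refine sum_le_sum_of_subset_of_nonneg ?_ fun q _ _ => vonMangoldt_nonneg
          intro q hq
          rw [mem_filter] at hq
          exact Nat.mem_divisors.2 ⟨hq.2, Int.natAbs_ne_zero.2 hne⟩
        refine h4.trans ?_
        have h5 := T_le x.1 x.2 (max x.1 x.2) (le_max_left _ _) (le_max_right _ _) hmax1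
        have h6 : (((T x.1 x.2).natAbs : ℕ) : ℝ) ≤ (864 : ℝ) ^ (max x.1 x.2) := by
          have h7 : (((T x.1 x.2).natAbs : ℕ) : ℤ) ≤ 864 ^ (max x.1 x.2) := by
            rw [Int.natCast_natAbs]; exact h5
          exact_mod_cast h7
        rw [Real.log_le_iff_le_exp (by
          have : 0 < (T x.1 x.2).natAbs := Int.natAbs_pos.2 hne
          exact_mod_cast this)]
        exact h6.trans (pow_le_exp _)
      rw [h2]
      calc _ ≤ (7 * ((max x.1 x.2 : ℕ) : ℝ)) * (4 * X / ((max x.1 x.2 : ℕ) : ℝ) ^ 2) :=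
            mul_le_mul_of_nonneg_right h3 (by positivity)
        _ = 28 * X * (1 / ((max x.1 x.2 : ℕ) : ℝ)) := by
            field_simp
            ring
    refine (sum_le_sum h1).trans ?_
    rw [← mul_sum]
    exact mul_le_mul_of_nonneg_left (box_sum H) (by positivity)
  have hsplit : ∑ q ∈ Q, Λ q * (cq X q : ℝ) = ∑ q ∈ Q, Λ q * ((cq X q : ℝ) - 1) + ∑ q ∈ Q, Λ q := by
    rw [← sum_add_distrib]
    refine sum_congr rfl fun q _ => ?_
    ring
  rw [hA, hsplit]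
  have hHs : (H : ℝ) ≤ 1.42 * √(X : ℝ) := by
    have h1 : (H : ℝ) ≤ √((2 * X : ℕ) : ℝ) := Real.nat_sqrt_le_real_sqrt
    have h2 : √((2 * X : ℕ) : ℝ) = √2 * √(X : ℝ) := by
      push_cast
      rw [Real.sqrt_mul (by norm_num)]
    have h3 : √(2 : ℝ) ≤ 1.42 := by
      rw [Real.sqrt_le_left (by norm_num)]
      norm_num
    rw [h2] at h1
    exact h1.trans (mul_le_mul_of_nonneg_right h3 (Real.sqrt_nonneg _))
  have hX0 : (0 : ℝ) ≤ X := by positivity
  have h32 : (X : ℝ) ^ (3 / 2 : ℝ) = X * √(X : ℝ) := by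
    rw [show (3 / 2 : ℝ) = 1 + 1 / 2 by norm_num, Real.rpow_add' hX0 (by norm_num), Real.rpow_one,
      Real.sqrt_eq_rpow]
  have hXs : (X : ℝ) ≤ X * √(X : ℝ) := by
    rcases Nat.eq_zero_or_pos X with h | h
    · rw [h]; simp
    · have : 1 ≤ √(X : ℝ) := by
        rw [Real.one_le_sqrt]
        exact_mod_cast h
      nlinarith
  have hfin : 28 * (X : ℝ) * (4 * H) ≤ 160 * (X * √(X : ℝ)) := by
    have := mul_le_mul_of_nonneg_left hHs hX0
    nlinarith
  rw [h32]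
  linarith

end Pool.Agent.K9h50.PG
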