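import Mathlib

/-!
# The number `N_13 = 160459573394847767113` is prime
-/

set_option autoImplicit false

namespace Pool.Agent.K9h50.PG

/-- modular exponentiation, the binary digits of the exponent from the left -/
def pm (n a : ℕ) (x : ℕ) (l : List Bool) : ℕ :=
  l.foldl (fun x b => if b then x * x % n * a % n else x * x % n) x

/-- the value of the binary digits -/
def ev (e : ℕ) (l : List Bool) : ℕ := l.foldl (fun e b => if b then 2 * e + 1 else 2 * e) e

lemma pm_eq (n a : ℕ) (l : List Bool) : ∀ x e : ℕ, (x : ZMod n) = (a : ZMod n) ^ e →
    ((pm n a x l : ℕ) : ZMod n) = (a : ZMod n) ^ (ev e l) := by
  induction l with
  | nil => intro x e h; exact h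
  | cons b l ih =>
    intro x e h
    unfold pm ev
    rw [List.foldl_cons, List.foldl_cons]
    apply ih
    cases b
    · simp only [Bool.false_eq_true, if_false]
      rw [ZMod.natCast_mod, Nat.cast_mul, h]
      ring
    · simp only [if_true]
      rw [ZMod.natCast_mod, Nat.cast_mul, ZMod.natCast_mod, Nat.cast_mul, h]
      ring

lemma pm_pow (n a : ℕ) (l : List Bool) (e r : ℕ) (he : ev 0 l = e) (hr : pm n a 1 l = r) :
    (a : ZMod n) ^ e = (r : ZMod n) := by
  rw [← he, ← hr, pm_eq n a l 1 0 (by simp)]

lemma prime13 : Nat.Prime 160459573394847767113 := by
  apply lucas_primality 160459573394847767113 ((5 : ℕ) : ZMod 160459573394847767113)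
  · rw [pm_pow 160459573394847767113 5 [true, false, false, false, true, false, true, true, false, false, true, false, true, true, false, true, false, false, true, false, true, true, true, false, true, false, true, true, true, true, false, true, true, false, false, true, true, true, true, true, false, false, true, false, true, false, false, true, true, true, true, true, false, false, false, true, true, false, true, false, false, true, false, false, true, false, false, false] (160459573394847767113 - 1) 1 (by decide +kernel) (by decide +kernel)]
    simp
  · intro q hq hd
    have h1 : 160459573394847767113 - 1 = 2 ^ 3 * 3 ^ 2 * 22307 ^ 2 * 66923 ^ 2 := by norm_num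
    have h2 : q = 2 ∨ q = 3 ∨ q = 22307 ∨ q = 66923 := by
      rw [h1] at hd
      rcases (Nat.Prime.dvd_mul hq).1 hd with hd | hd
      · rcases (Nat.Prime.dvd_mul hq).1 hd with hd | hd
        · rcases (Nat.Prime.dvd_mul hq).1 hd with hd | hd
          · exact Or.inl ((Nat.prime_dvd_prime_iff_eq hq (by norm_num)).1 (hq.dvd_of_dvd_pow hd))
          · exact Or.inr (Or.inl ((Nat.prime_dvd_prime_iff_eq hq (by norm_num)).1 (hq.dvd_of_dvd_pow hd)))
        · exact Or.inr (Or.inr (Or.inl ((Nat.prime_dvd_prime_iff_eq hq (by norm_num)).1 (hq.dvd_of_dvd_pow hd))))
      · exact Or.inr (Or.inr (Or.inr ((Nat.prime_dvd_prime_iff_eq hq (by norm_num)).1 (hq.dvd_of_dvd_pow hd))))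
    have key : ∀ r : ℕ, r < 160459573394847767113 → r ≠ 1 →
        ((r : ℕ) : ZMod 160459573394847767113) ≠ 1 := by
      intro r hr h1 h
      have h2 : ((r : ℕ) : ZMod 160459573394847767113) = ((1 : ℕ) : ZMod 160459573394847767113) := by
        rw [h]; simp
      rw [ZMod.natCast_eq_natCast_iff'] at h2
      rw [Nat.mod_eq_of_lt hr, Nat.mod_eq_of_lt (by norm_num)] at h2
      exact h1 h2
    rcases h2 with rfl | rfl | rfl | rfl
    · rw [pm_pow 160459573394847767113 5 [true, false, false, false, true, false, true, true, false, false, true, false, true, true, false, true, false, false, true, false, true, true, true, false, true, false, true, true, true, true, false, true, true, false, false, true, true, true, true, true, false, false, true, false, true, false, false, true, true, true, true, true, false, false, false, true, true, false, true, false, false, true, false, false, true, false, false] ((160459573394847767113 - 1) / 2) 160459573394847767112 (by decide +kernel) (by decide +kernel)]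
      exact key _ (by norm_num) (by norm_num)
    · rw [pm_pow 160459573394847767113 5 [true, false, true, true, true, false, false, true, true, false, false, true, false, false, false, true, true, false, false, true, false, false, true, true, true, false, true, false, false, true, true, true, false, true, true, true, true, true, true, false, true, true, true, false, false, false, true, false, true, false, false, true, false, true, true, true, true, false, false, false, false, true, true, false, false, false] ((160459573394847767113 - 1) / 3) 14438698986547291376 (by decide +kernel) (by decide +kernel)]
      exact key _ (by norm_num) (by norm_num)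
    · rw [pm_pow 160459573394847767113 5 [true, true, false, false, true, true, false, false, false, true, true, true, false, false, false, true, true, false, true, true, false, false, true, false, true, true, true, true, true, false, true, true, false, false, false, true, true, true, true, false, false, false, true, false, true, false, false, false, true, true, false, false, false] ((160459573394847767113 - 1) / 22307) 91204483981761388727 (by decide +kernel) (by decide +kernel)]
      exact key _ (by norm_num) (by norm_num)
    · rw [pm_pow 160459573394847767113 5 [true, false, false, false, true, false, false, false, false, true, false, false, true, false, true, false, true, true, false, false, false, false, false, true, true, false, true, true, false, true, true, false, false, false, false, true, true, false, false, true, true, false, false, false, true, true, false, true, true, false, false, false] ((160459573394847767113 - 1) / 66923) 83559327358810254424 (by decide +kernel) (by decide +kernel)]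
      exact key _ (by norm_num) (by norm_num)

end Pool.Agent.K9h50.PG
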