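import Pool.Agent.K9h50.PG.Fin

/-!
# The numbers `N_m` with `φ(N_m)` near `N_m`: local part
-/

set_option autoImplicit false

open Finset

namespace Pool.Agent.K9h50.PG

/-- sums of `1 / k` over at most `t` positive integers -/
lemma sum_inv_le (K : Finset ℕ) (t : ℕ) (ht : 1 ≤ t) (hK : ∀ k ∈ K, 1 ≤ k) (hc : K.card ≤ t) :
    ∑ k ∈ K, (1 : ℝ) / k ≤ 3 / 2 * √(t : ℝ) := by
  have ht' : (0 : ℝ) < t := by exact_mod_cast ht
  have hs : 0 < √(t : ℝ) := Real.sqrt_pos.2 ht'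
  have hss : √(t : ℝ) * √(t : ℝ) = t := Real.mul_self_sqrt ht'.le
  have h1 : ∀ k ∈ K, (1 : ℝ) / k ≤ (1 / √(t : ℝ) + √(t : ℝ) * (1 / (k : ℝ) ^ 2)) / 2 := by
    intro k hk
    have hk' : (0 : ℝ) < k := by exact_mod_cast hK k hk
    have h2 : 0 ≤ (1 - √(t : ℝ) * (1 / k)) ^ 2 / √(t : ℝ) := by positivity
    have h3 : (1 - √(t : ℝ) * (1 / k)) ^ 2 / √(t : ℝ) =
        1 / √(t : ℝ) + √(t : ℝ) * (1 / (k : ℝ) ^ 2) - 2 * (1 / k) := by
      field_simp
      ring
    linarith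
  have h2 : ∑ k ∈ K, (1 : ℝ) / (k : ℝ) ^ 2 ≤ 2 := by
    have h3 := sum_le_hasSum K (fun i _ => by positivity) hasSum_zeta_two
    have h4 := Real.pi_lt_d2
    have h5 := Real.pi_pos
    have : Real.pi ^ 2 ≤ 12 := by nlinarith
    linarith
  calc ∑ k ∈ K, (1 : ℝ) / k ≤ ∑ k ∈ K, (1 / √(t : ℝ) + √(t : ℝ) * (1 / (k : ℝ) ^ 2)) / 2 :=
        sum_le_sum h1
    _ = (K.card * (1 / √(t : ℝ)) + √(t : ℝ) * ∑ k ∈ K, (1 / (k : ℝ) ^ 2)) / 2 := by
        rw [← sum_div, sum_add_distrib, sum_const, nsmul_eq_mul, mul_sum]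
    _ ≤ (t * (1 / √(t : ℝ)) + √(t : ℝ) * 2) / 2 := by
        have h6 : (K.card : ℝ) ≤ t := by exact_mod_cast hc
        have h7 : (0 : ℝ) ≤ 1 / √(t : ℝ) := by positivity
        have h8 := mul_le_mul_of_nonneg_right h6 h7
        have h9 := mul_le_mul_of_nonneg_left h2 hs.le
        linarith
    _ = 3 / 2 * √(t : ℝ) := by
        have : (t : ℝ) * (1 / √(t : ℝ)) = √(t : ℝ) := by
          field_simp
          linarith
        rw [this]
        ring

/-- the unit `(3 + w) ^ 2` -/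
def uu {p : ℕ} {w : ZMod p} (hw : w ^ 2 = 8) : (ZMod p)ˣ :=
  ⟨(3 + w) ^ 2, (3 - w) ^ 2, uv hw, by rw [mul_comm]; exact uv hw⟩

lemma uu_val {p : ℕ} {w : ZMod p} (hw : w ^ 2 = 8) : ((uu hw : (ZMod p)ˣ) : ZMod p) = (3 + w) ^ 2 := rfl

lemma cls {p : ℕ} [Fact p.Prime] {w : ZMod p} (hw : w ^ 2 = 8) (n : ℕ) (hq : p ∣ N n) :
    (((uu hw) ^ n : (ZMod p)ˣ) : ZMod p) = -2 ∨ 2 * (((uu hw) ^ n : (ZMod p)ˣ) : ZMod p) = -1 := by
  have h := quad hw n hq
  rw [Units.val_pow_eq_pow_val, uu_val]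
  rcases mul_eq_zero.1 h with h | h
  · right; linear_combination h
  · left; linear_combination h

open Classical in
/-- the order of the `M`-th power of the unit modulo `p` -/
noncomputable def tt (M p : ℕ) : ℕ :=
  if h : ∃ w : ZMod p, w ^ 2 = 8 then orderOf ((uu h.choose_spec) ^ M) else 0

lemma data {p M : ℕ} (hp : p.Prime) (h3 : p ≠ 3) (hex : ∃ s, p ∣ N (M * s)) :
    ∃ u : (ZMod p)ˣ, tt M p = orderOf (u ^ M) ∧ ∀ s, p ∣ N (M * s) →
      ((((u ^ M) ^ s : (ZMod p)ˣ) : ZMod p) = -2 ∨ 2 * (((u ^ M) ^ s : (ZMod p)ˣ) : ZMod p) = -1) := by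
  have := Fact.mk hp
  obtain ⟨s, hs⟩ := hex
  obtain ⟨w, hw, -⟩ := root p (M * s) hs ((Nat.coprime_primes Nat.prime_three hp).2 (Ne.symm h3))
  have h : ∃ w : ZMod p, w ^ 2 = 8 := ⟨w, hw⟩
  refine ⟨uu h.choose_spec, by rw [tt, dif_pos h], fun s hs => ?_⟩
  have h2 := cls h.choose_spec (M * s) hs
  rwa [pow_mul] at h2

/-- the number of odd `s ≤ S` such that `p` divides `N_(M s)` -/
def cc (M S p : ℕ) : ℕ := ((Icc 1 S).filter (fun s => Odd s ∧ p ∣ N (M * s))).card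

lemma cc_le {p M S : ℕ} (hp : p.Prime) (h3 : p ≠ 3) (h0 : cc M S p ≠ 0) :
    cc M S p ≤ 2 * (S / tt M p + 1) := by
  classical
  have := Fact.mk hp
  have hne : ((Icc 1 S).filter (fun s => Odd s ∧ p ∣ N (M * s))).Nonempty :=
    card_pos.1 (Nat.pos_of_ne_zero h0)
  obtain ⟨s1, hs1⟩ := hne
  rw [mem_filter] at hs1
  obtain ⟨u, hu, hcl⟩ := data hp h3 ⟨s1, hs1.2.2⟩
  have hcl2 : ∀ s, p ∣ N (M * s) → (u ^ M) ^ s = (u ^ M) ^ s1 ∨ (u ^ M) ^ s * (u ^ M) ^ s1 = 1 := by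
    intro s hs
    rcases hcl s hs with h | h <;> rcases hcl s1 hs1.2.2 with h' | h'
    · left; apply Units.ext; rw [h, h']
    · right; apply Units.ext
      rw [Units.val_mul, h, Units.val_one]
      linear_combination -h'
    · right; apply Units.ext
      rw [Units.val_mul, h', Units.val_one]
      linear_combination -h
    · left; apply Units.ext
      have h2 : (2 : ZMod p) ≠ 0 := by
        intro h2
        rw [h2, zero_mul] at h
        have : (1 : ZMod p) = 0 := by linear_combination h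
        exact one_ne_zero this
      exact mul_left_cancel₀ h2 (h.trans h'.symm)
  have hsub : (Icc 1 S).filter (fun s => Odd s ∧ p ∣ N (M * s)) ⊆
      (Icc 1 S).filter (fun s => (u ^ M) ^ s = (u ^ M) ^ s1) ∪
        (Icc 1 S).filter (fun s => (u ^ M) ^ s * (u ^ M) ^ s1 = 1) := by
    intro s hs
    rw [mem_filter] at hs
    rcases hcl2 s hs.2.2 with h | h
    · exact mem_union_left _ (mem_filter.2 ⟨hs.1, h⟩)
    · exact mem_union_right _ (mem_filter.2 ⟨hs.1, h⟩)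
  have c1 := card_class S (tt M p) ((Icc 1 S).filter (fun s => (u ^ M) ^ s = (u ^ M) ^ s1))
    (filter_subset _ _) (by
      intro x hx y hy
      rw [mem_filter] at hx hy
      rw [hu]
      exact pow_eq_pow_iff_modEq.1 (hx.2.trans hy.2.symm))
  have c2 := card_class S (tt M p) ((Icc 1 S).filter (fun s => (u ^ M) ^ s * (u ^ M) ^ s1 = 1))
    (filter_subset _ _) (by
      intro x hx y hy
      rw [mem_filter] at hx hy
      rw [hu]
      exact pow_eq_pow_iff_modEq.1 (mul_right_cancel (hx.2.trans hy.2.symm)))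
  calc cc M S p ≤ _ := card_le_card hsub
    _ ≤ _ := card_union_le _ _
    _ ≤ 2 * (S / tt M p + 1) := by omega

/-- the order divides `p - 1` and `p` divides `(-2) ^ t - 1` -/
lemma tt_facts {p M : ℕ} (hp : p.Prime) (h3 : p ≠ 3) (hex : ∃ s, p ∣ N (M * s)) :
    0 < tt M p ∧ tt M p ∣ p - 1 ∧ (p : ℤ) ∣ (-2) ^ (tt M p) - 1 := by
  have := Fact.mk hp
  obtain ⟨u, hu, hcl⟩ := data hp h3 hex
  obtain ⟨s, hs⟩ := hex
  rw [hu]
  refine ⟨orderOf_pos _, ZMod.orderOf_units_dvd_card_sub_one _, ?_⟩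
  rw [← CharP.intCast_eq_zero_iff (ZMod p) p]
  push_cast
  set t := orderOf (u ^ M) with ht
  have h1 : (((((u ^ M) ^ s) ^ t : (ZMod p)ˣ)) : ZMod p) = 1 := by
    rw [← pow_mul, mul_comm s t, pow_mul, pow_orderOf_eq_one, one_pow, Units.val_one]
  rw [Units.val_pow_eq_pow_val] at h1
  rcases hcl s hs with h | h
  · rw [h] at h1
    rw [h1, sub_self]
  · have h2 : (-2 : ZMod p) * (((u ^ M) ^ s : (ZMod p)ˣ) : ZMod p) = 1 := by linear_combination -h
    have h4 : ((-2 : ZMod p)) ^ t * ((((u ^ M) ^ s : (ZMod p)ˣ) : ZMod p)) ^ t = 1 := by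
      rw [← mul_pow, h2, one_pow]
    rw [h1, mul_one] at h4
    rw [h4, sub_self]

lemma sol_two (m : ℕ) : (sol (m + 2)).1 = 17 * (sol m).1 + 48 * (sol m).2 ∧
    (sol (m + 2)).2 = 6 * (sol m).1 + 17 * (sol m).2 := by
  simp only [sol]
  constructor <;> ring

lemma not_3 (m : ℕ) (hm : Odd m) : ¬ 3 ∣ N m := by
  obtain ⟨k, rfl⟩ := hm
  have h : (sol (2 * k + 1)).1 % 3 = 0 := by
    induction k with
    | zero => simp [sol]
    | succ k ih =>
      rw [show 2 * (k + 1) + 1 = (2 * k + 1) + 2 by ring, (sol_two _).1]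
      omega
  unfold N
  obtain ⟨x, hx⟩ := Nat.dvd_of_mod_eq_zero h
  rw [hx]
  intro h2
  have : 8 * (3 * x) ^ 2 + 1 = 3 * (24 * x ^ 2) + 1 := by ring
  omega

lemma not_5 (m : ℕ) : ¬ 5 ∣ N m := by
  intro h
  unfold N at h
  have h7 : (8 * (sol m).1 ^ 2 + 1) % 5 = 0 := Nat.mod_eq_zero_of_dvd h
  have h6 : (sol m).1 % 5 = 0 ∨ (sol m).1 % 5 = 1 ∨ (sol m).1 % 5 = 2 ∨ (sol m).1 % 5 = 3 ∨
    (sol m).1 % 5 = 4 := by omega
  rcases h6 with h6 | h6 | h6 | h6 | h6 <;> simp [Nat.add_mod, Nat.mul_mod, Nat.pow_mod, h6] at h7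

set_option maxRecDepth 100000 in
lemma not_17 (m : ℕ) : ¬ 17 ∣ N m := by
  have h : ∀ k : ℕ, (((sol k).1 : ZMod 17), ((sol k).2 : ZMod 17)) ∈
      ({(1, 0), (3, 1), (0, 6), (14, 1), (16, 0), (14, 16), (0, 11), (3, 16)} :
        Finset (ZMod 17 × ZMod 17)) := by
    have hstep : ∀ x ∈ ({(1, 0), (3, 1), (0, 6), (14, 1), (16, 0), (14, 16), (0, 11), (3, 16)} :
        Finset (ZMod 17 × ZMod 17)), (3 * x.1 + 8 * x.2, x.1 + 3 * x.2) ∈
        ({(1, 0), (3, 1), (0, 6), (14, 1), (16, 0), (14, 16), (0, 11), (3, 16)} :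
        Finset (ZMod 17 × ZMod 17)) := by decide
    intro k
    induction k with
    | zero => simp [sol]
    | succ k ih =>
      have h1 := hstep _ ih
      simp only [sol]
      push_cast
      exact h1
  intro h2
  rw [← ZMod.natCast_eq_zero_iff] at h2
  unfold N at h2
  push_cast at h2
  have h3 : ∀ x ∈ ({(1, 0), (3, 1), (0, 6), (14, 1), (16, 0), (14, 16), (0, 11), (3, 16)} :
        Finset (ZMod 17 × ZMod 17)), 8 * x.1 ^ 2 + 1 ≠ 0 := by decide
  exact h3 _ (h m) h2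

/-- the primes with a small order: divisors of Fermat numbers -/
lemma small_order {p M R s : ℕ} (hp : p.Prime) (h3 : p ≠ 3) (h5 : p ≠ 5) (h17 : p ≠ 17)
    (hM : ∀ q : ℕ, q.Prime → q ≤ 2 ^ R + 1 → ∃ e, q - 1 ∣ 2 ^ e * M)
    (hs : Odd s) (hd : p ∣ N (M * s)) (ht : tt M p < R) :
    p ≤ 2 ^ R + 1 ∧ ∃ v, 4 ≤ v ∧ v < R ∧ tt M p = 2 ^ v ∧ 2 ^ v ∣ p - 1 ∧ p ∣ 2 ^ (2 ^ (v - 1)) + 1 := by
  have := Fact.mk hp
  obtain ⟨ht0, htp, htd⟩ := tt_facts (M := M) hp h3 ⟨s, hd⟩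
  have hpR : p ≤ 2 ^ R + 1 := by
    have h1 : ((-2 : ℤ) ^ (tt M p) - 1) ≠ 0 := by
      intro h
      have h2 : (-2 : ℤ) ^ (tt M p) = 1 := by linarith
      have h4 : (2 : ℤ) ∣ 1 := by
        rw [← h2]
        exact (dvd_neg.2 dvd_rfl : (2 : ℤ) ∣ -2).trans (dvd_pow_self _ ht0.ne')
      norm_num at h4
    have h2 := Int.le_of_dvd (abs_pos.2 h1) ((dvd_abs _ _).2 htd)
    have h4 : |(-2 : ℤ) ^ (tt M p) - 1| ≤ 2 ^ R + 1 := by
      refine (abs_sub _ _).trans ?_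
      rw [abs_pow]
      have : (2 : ℤ) ^ (tt M p) ≤ 2 ^ R := pow_le_pow_right₀ (by norm_num) ht.le
      simpa using this
    exact_mod_cast h2.trans h4
  obtain ⟨u, hu, hcl⟩ := data hp h3 ⟨s, hd⟩
  have hpow : ∃ v, tt M p = 2 ^ v := by
    obtain ⟨e, he⟩ := hM p hp hpR
    have h1 : (u ^ M) ^ (2 ^ e) = 1 := by
      rw [← pow_mul, mul_comm M]
      exact orderOf_dvd_iff_pow_eq_one.1 ((ZMod.orderOf_units_dvd_card_sub_one u).trans he)
    have h2 := orderOf_dvd_of_pow_eq_one h1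
    rw [← hu] at h2
    obtain ⟨v, -, hv⟩ := (Nat.dvd_prime_pow Nat.prime_two).1 h2
    exact ⟨v, hv⟩
  obtain ⟨v, hv⟩ := hpow
  refine ⟨hpR, v, ?_⟩
  have hvR : v < R := lt_of_le_of_lt (Nat.lt_two_pow_self.le) (hv ▸ ht)
  -- the order of `g = (u ^ M) ^ s`
  set g : (ZMod p)ˣ := (u ^ M) ^ s with hg
  have hog : orderOf g = 2 ^ v := by
    have hcop : Nat.Coprime (orderOf (u ^ M)) s := by
      rw [← hu, hv]
      exact Nat.Coprime.pow_left v ((Nat.coprime_two_left).2 hs)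
    rw [hg, hcop.orderOf_pow, ← hu, hv]
  have h2ne : (2 : ZMod p) ≠ 0 := by
    rcases hcl s hd with h | h
    · intro h2
      have hh : ((g : (ZMod p)ˣ) : ZMod p) = 0 := by rw [hg, h]; linear_combination -h2
      exact g.ne_zero hh
    · intro h2
      rw [h2, zero_mul] at h
      have : (1 : ZMod p) = 0 := by linear_combination h
      exact one_ne_zero this
  have hpr : ∀ n : ℕ, Even n → g ^ n = -1 → (2 : ZMod p) ^ n = -1 := by
    intro n hn hgn
    have h1 : ((g : ZMod p)) ^ n = -1 := by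
      have := congrArg Units.val hgn
      simpa using this
    rcases hcl s hd with h | h
    · have h' : (g : ZMod p) = -2 := h
      rw [h', hn.neg_pow] at h1
      exact h1
    · have h' : 2 * (g : ZMod p) = -1 := h
      have h4 : (2 : ZMod p) ^ n * (g : ZMod p) ^ n = 1 := by
        rw [← mul_pow, h', hn.neg_one_pow]
      rw [h1] at h4
      linear_combination -h4
  have hgv : 1 ≤ v → g ^ (2 ^ (v - 1)) = -1 := by
    intro hv1
    have h1 : (g ^ (2 ^ (v - 1))) ^ 2 = 1 := by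
      rw [← pow_mul, ← pow_succ, Nat.sub_add_cancel hv1, ← hog, pow_orderOf_eq_one]
    have h2 : g ^ (2 ^ (v - 1)) ≠ 1 := by
      intro h2
      have h4 := orderOf_dvd_of_pow_eq_one h2
      rw [hog, Nat.pow_dvd_pow_iff_le_right (by norm_num)] at h4
      omega
    have h4 : ((g ^ (2 ^ (v - 1)) : (ZMod p)ˣ) : ZMod p) ^ 2 = 1 := by
      rw [← Units.val_pow_eq_pow_val, h1, Units.val_one]
    rcases mul_self_eq_one_iff.1 ((pow_two _).symm.trans h4) with h6 | h6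
    · exact absurd (Units.ext h6) h2
    · exact Units.ext (by rw [h6]; simp)
  have hv0 : v ≠ 0 := by
    rintro rfl
    rw [pow_zero, orderOf_eq_one_iff] at hog
    have hg1 : (g : ZMod p) = 1 := by rw [hog]; rfl
    have h0 : (3 : ZMod p) = 0 := by
      rcases hcl s hd with h | h
      · have h' : (g : ZMod p) = -2 := h
        rw [hg1] at h'
        linear_combination h'
      · have h' : 2 * (g : ZMod p) = -1 := h
        rw [hg1] at h'
        linear_combination h'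
    have h6 : p ∣ 3 := (ZMod.natCast_eq_zero_iff 3 p).1 (by exact_mod_cast h0)
    exact h3 ((Nat.prime_dvd_prime_iff_eq hp Nat.prime_three).1 h6)
  have hv1 : v ≠ 1 := by
    rintro rfl
    have h1 := hgv le_rfl
    simp only [Nat.sub_self, pow_zero, pow_one] at h1
    have hg1 : (g : ZMod p) = -1 := by rw [h1]; simp
    rcases hcl s hd with h | h
    · have h' : (g : ZMod p) = -2 := h
      rw [hg1] at h'
      have : (1 : ZMod p) = 0 := by linear_combination h'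
      exact one_ne_zero this
    · have h' : 2 * (g : ZMod p) = -1 := h
      rw [hg1] at h'
      have : (1 : ZMod p) = 0 := by linear_combination -h'
      exact one_ne_zero this
  have hdiv : p ∣ 2 ^ (2 ^ (v - 1)) + 1 := by
    have hev : Even (2 ^ (v - 1)) := (Nat.even_pow.2 ⟨even_two, by omega⟩)
    have h1 := hpr _ hev (hgv (by omega))
    rw [← ZMod.natCast_eq_zero_iff]
    push_cast
    rw [h1]
    ring
  have hv2 : v ≠ 2 := by
    rintro rfl
    norm_num at hdiv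
    exact h5 ((Nat.prime_dvd_prime_iff_eq hp (by norm_num)).1 hdiv)
  have hv3 : v ≠ 3 := by
    rintro rfl
    norm_num at hdiv
    exact h17 ((Nat.prime_dvd_prime_iff_eq hp (by norm_num)).1 hdiv)
  exact ⟨by omega, hvR, hv, hv ▸ htp, hdiv⟩

end Pool.Agent.K9h50.PG
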