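import Pool.Agent.K9h50.PG.Tot

/-!
# The numbers `N_m` with `φ(N_m)` near `N_m`: sums over primes
-/

set_option autoImplicit false

open Finset

namespace Pool.Agent.K9h50.PG

lemma card_of_prod (P : Finset ℕ) (b n B e : ℕ) (hb : 2 ≤ b) (hP : ∀ p ∈ P, p.Prime ∧ b ^ e ≤ p ∧ p ∣ n)
    (hn : 0 < n) (hB : n < b ^ (B + 1)) : e * P.card ≤ B := by
  have h1 : ∏ p ∈ P, p ∣ n :=
    Finset.prod_primes_dvd n (fun p hp => (hP p hp).1.prime) (fun p hp => (hP p hp).2.2)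
  have h2 := Nat.le_of_dvd hn h1
  have h3 : (b ^ e) ^ P.card ≤ ∏ p ∈ P, p := by
    rw [← prod_const]
    exact prod_le_prod' fun p hp => (hP p hp).2.1
  have h4 : b ^ (e * P.card) < b ^ (B + 1) := by
    rw [pow_mul]
    exact (h3.trans h2).trans_lt hB
  have h5 := (Nat.pow_lt_pow_iff_right (by omega : 1 < b)).1 h4
  omega

lemma sum_A (t : ℕ) (ht : 1 ≤ t) (P : Finset ℕ)
    (hP : ∀ p ∈ P, p.Prime ∧ 3 ≤ p ∧ t ∣ p - 1 ∧ (p : ℤ) ∣ (-2) ^ t - 1) :
    ∑ p ∈ P, (1 : ℝ) / p ≤ 3 / 2 / √(t : ℝ) := by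
  classical
  have hn0 : ((-2 : ℤ) ^ t - 1) ≠ 0 := by
    intro h
    have h2 : (-2 : ℤ) ^ t = 1 := by linarith
    have h4 : (2 : ℤ) ∣ 1 := by
      rw [← h2]
      exact (dvd_neg.2 dvd_rfl : (2 : ℤ) ∣ -2).trans (dvd_pow_self _ (by omega))
    norm_num at h4
  have hle : ((-2 : ℤ) ^ t - 1).natAbs ≤ 2 ^ t + 1 := by
    have h1 := Int.natAbs_sub_le ((-2 : ℤ) ^ t) 1
    rw [Int.natAbs_pow] at h1
    simpa using h1
  have hlt : ((-2 : ℤ) ^ t - 1).natAbs < 3 ^ (t + 1) := by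
    have h1 : 2 ^ t ≤ 3 ^ t := Nat.pow_le_pow_left (by norm_num) t
    have h2 : 1 ≤ 3 ^ t := Nat.one_le_pow _ _ (by norm_num)
    rw [pow_succ]
    omega
  have hcard : P.card ≤ t := by
    have := card_of_prod P 3 ((-2 : ℤ) ^ t - 1).natAbs t 1 (by norm_num)
      (fun p hp => ⟨(hP p hp).1, by simpa using (hP p hp).2.1, Int.natCast_dvd.1 (hP p hp).2.2.2⟩)
      (Int.natAbs_pos.2 hn0) hlt
    omega
  have hk : ∀ p ∈ P, p = t * ((p - 1) / t) + 1 ∧ 1 ≤ (p - 1) / t := by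
    intro p hp
    obtain ⟨h1, h2, ⟨k, hk⟩, -⟩ := hP p hp
    have h5 : (p - 1) / t = k := by rw [hk, Nat.mul_div_cancel_left _ (by omega)]
    rw [h5]
    refine ⟨by omega, ?_⟩
    rcases Nat.eq_zero_or_pos k with h | h
    · rw [h] at hk
      omega
    · exact h
  have hinj : Set.InjOn (fun p => (p - 1) / t) (P : Set ℕ) := by
    intro p hp q hq h
    have h1 := (hk p hp).1
    have h2 := (hk q hq).1
    simp only at h
    rw [h] at h1
    omega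
  have ht' : (0 : ℝ) < t := by exact_mod_cast ht
  have hs : 0 < √(t : ℝ) := Real.sqrt_pos.2 ht'
  calc ∑ p ∈ P, (1 : ℝ) / p ≤ ∑ p ∈ P, 1 / (t : ℝ) * (1 / (((p - 1) / t : ℕ) : ℝ)) := by
        refine sum_le_sum fun p hp => ?_
        obtain ⟨h1, h2⟩ := hk p hp
        have h2' : (0 : ℝ) < (((p - 1) / t : ℕ) : ℝ) := by exact_mod_cast h2
        have h3 : (p : ℝ) = t * (((p - 1) / t : ℕ) : ℝ) + 1 := by exact_mod_cast h1
        rw [one_div_mul_one_div]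
        apply one_div_le_one_div_of_le (by positivity)
        rw [h3]
        linarith
    _ = 1 / (t : ℝ) * ∑ k ∈ P.image (fun p => (p - 1) / t), (1 : ℝ) / k := by
        rw [← mul_sum, sum_image hinj]
    _ ≤ 1 / (t : ℝ) * (3 / 2 * √(t : ℝ)) := by
        refine mul_le_mul_of_nonneg_left ?_ (by positivity)
        refine sum_inv_le _ t ht ?_ (card_image_le.trans hcard)
        intro k hk2
        obtain ⟨p, hp, rfl⟩ := mem_image.1 hk2
        exact (hk p hp).2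
    _ = 3 / 2 / √(t : ℝ) := by
        have h1 : √(t : ℝ) * √(t : ℝ) = t := Real.mul_self_sqrt ht'.le
        rw [div_mul_eq_mul_div, one_mul, div_eq_div_iff ht'.ne' hs.ne']
        linear_combination (3 / 2 : ℝ) * h1

/-- the bound for the sum of `1 / p` over the prime divisors of the Fermat number `F_(v - 1)` -/
noncomputable def be (v : ℕ) : ℝ := if v = 4 then 1 / 257 else if v = 5 then 1 / 65537 else 1 / 28

lemma sum_B (v : ℕ) (hv : 4 ≤ v) (P : Finset ℕ)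
    (hP : ∀ p ∈ P, p.Prime ∧ p ∣ 2 ^ (2 ^ (v - 1)) + 1) :
    ∑ p ∈ P, (1 : ℝ) / p ≤ be v := by
  by_cases h4 : v = 4
  · subst h4
    have h1 : P ⊆ {257} := by
      intro p hp
      obtain ⟨h2, h3⟩ := hP p hp
      norm_num at h3
      rw [mem_singleton]
      exact (Nat.prime_dvd_prime_iff_eq h2 (by norm_num)).1 h3
    calc ∑ p ∈ P, (1 : ℝ) / p ≤ ∑ p ∈ ({257} : Finset ℕ), (1 : ℝ) / p :=
          sum_le_sum_of_subset_of_nonneg h1 (fun _ _ _ => by positivity)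
      _ ≤ be 4 := by simp [be]
  by_cases h5 : v = 5
  · subst h5
    have h1 : P ⊆ {65537} := by
      intro p hp
      obtain ⟨h2, h3⟩ := hP p hp
      norm_num at h3
      rw [mem_singleton]
      exact (Nat.prime_dvd_prime_iff_eq h2 (by norm_num)).1 h3
    calc ∑ p ∈ P, (1 : ℝ) / p ≤ ∑ p ∈ ({65537} : Finset ℕ), (1 : ℝ) / p :=
          sum_le_sum_of_subset_of_nonneg h1 (fun _ _ _ => by positivity)
      _ ≤ be 5 := by simp [be]
  have hk : ∀ p ∈ P, 2 ^ (v + 1) ≤ p := by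
    intro p hp
    obtain ⟨k, hk⟩ := Nat.fermat_primeFactors_one_lt (v - 1) p (by omega) (hP p hp).1 (hP p hp).2
    rw [show v - 1 + 2 = v + 1 by omega] at hk
    have : k ≠ 0 := by
      rintro rfl
      have := (hP p hp).1.one_lt
      omega
    have h2 : 1 * 2 ^ (v + 1) ≤ k * 2 ^ (v + 1) := Nat.mul_le_mul_right _ (by omega)
    omega
  have hcard : (v + 1) * P.card ≤ 2 ^ (v - 1) := by
    refine card_of_prod P 2 (2 ^ (2 ^ (v - 1)) + 1) _ (v + 1) le_rfl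
      (fun p hp => ⟨(hP p hp).1, hk p hp, (hP p hp).2⟩) (by positivity) ?_
    have h1 : 1 < 2 ^ 2 ^ (v - 1) := Nat.one_lt_two_pow (by positivity)
    rw [pow_succ]
    omega
  have h7' : 7 * P.card ≤ 2 ^ (v - 1) := (Nat.mul_le_mul_right _ (by omega)).trans hcard
  have h6 : (2 : ℝ) ^ (v + 1) = 4 * 2 ^ (v - 1) := by
    rw [show v + 1 = (v - 1) + 2 by omega, pow_add]
    ring
  have h7 : (0 : ℝ) < 2 ^ (v - 1) := by positivity
  calc ∑ p ∈ P, (1 : ℝ) / p ≤ ∑ p ∈ P, 1 / (2 : ℝ) ^ (v + 1) := by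
        refine sum_le_sum fun p hp => ?_
        apply one_div_le_one_div_of_le (by positivity)
        exact_mod_cast hk p hp
    _ = P.card * (1 / (2 : ℝ) ^ (v + 1)) := by rw [sum_const, nsmul_eq_mul]
    _ ≤ be v := by
        have h8 : (7 : ℝ) * P.card ≤ 2 ^ (v - 1) := by exact_mod_cast h7'
        rw [be, if_neg h4, if_neg h5, h6, mul_one_div, div_le_div_iff₀ (by positivity) (by norm_num)]
        linarith

lemma tail_aux (x y b c : ℝ) (hx : 0 < x) (hy : 0 < y) (hxx : x * x = b) (hyy : y * y = c)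
    (hyy' : y * y = b + 1) (hxy : x ≤ y) : 1 / (c * y) ≤ 2 / x - 2 / y := by
  rw [← hyy]
  have h1 : (y - x) * (y + x) = 1 := by linear_combination hyy' - hxx
  rw [div_sub_div _ _ hx.ne' hy.ne', div_le_div_iff₀ (by positivity) (by positivity)]
  have h2 : 0 ≤ y - x := by linarith
  have h3 : x * y * (y + x) ≤ 2 * (y * y * y) := by
    nlinarith [mul_pos hx hy, mul_pos hy hy, mul_nonneg h2 (mul_pos hy hy).le,
      mul_nonneg h2 (mul_pos hx hy).le]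
  have h4 := mul_le_mul_of_nonneg_left h3 h2
  calc 1 * (x * y) = ((y - x) * (y + x)) * (x * y) := by rw [h1]
    _ = (y - x) * (x * y * (y + x)) := by ring
    _ ≤ (y - x) * (2 * (y * y * y)) := h4
    _ = (2 * y - x * 2) * (y * y * y) := by ring

lemma tail_sum (a b : ℕ) (ha : 1 ≤ a) (hab : a ≤ b) :
    ∑ t ∈ Ico (a + 1) (b + 1), (1 : ℝ) / (t * √(t : ℝ)) ≤ 2 / √(a : ℝ) - 2 / √(b : ℝ) := by
  induction b, hab using Nat.le_induction with
  | base => simp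
  | succ b hab ih =>
    rw [sum_Ico_succ_top (by omega)]
    have hb : (0 : ℝ) < b := by exact_mod_cast (by omega : 0 < b)
    have hx : 0 < √(b : ℝ) := Real.sqrt_pos.2 hb
    have hy : 0 < √((b + 1 : ℕ) : ℝ) := Real.sqrt_pos.2 (by positivity)
    have hxx : √(b : ℝ) * √(b : ℝ) = b := Real.mul_self_sqrt hb.le
    have hyy : √((b + 1 : ℕ) : ℝ) * √((b + 1 : ℕ) : ℝ) = ((b + 1 : ℕ) : ℝ) :=
      Real.mul_self_sqrt (by positivity)
    have hxy : √(b : ℝ) ≤ √((b + 1 : ℕ) : ℝ) := Real.sqrt_le_sqrt (by push_cast; linarith)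
    have hyy' : √((b + 1 : ℕ) : ℝ) * √((b + 1 : ℕ) : ℝ) = b + 1 := by rw [hyy]; push_cast; ring
    have hkey := tail_aux (√(b : ℝ)) (√((b + 1 : ℕ) : ℝ)) b ((b + 1 : ℕ) : ℝ) hx hy hxx hyy hyy' hxy
    linarith

lemma geo_sum (R : ℕ) (hR : 6 ≤ R) : ∑ v ∈ Ico 6 R, (1 : ℝ) / 2 ^ v ≤ 1 / 32 := by
  have h : ∑ v ∈ Ico 6 R, (1 : ℝ) / 2 ^ v = 1 / 32 - 2 / 2 ^ R := by
    induction R, hR using Nat.le_induction with
    | base => norm_num
    | succ R hR ih =>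
      rw [sum_Ico_succ_top (by omega), ih, pow_succ]
      field_simp
      ring
  rw [h]
  have : (0 : ℝ) < 2 / 2 ^ R := by positivity
  linarith

lemma be_sum (R : ℕ) (hR : 6 ≤ R) (S : ℝ) (hS : 0 ≤ S) :
    ∑ v ∈ Ico 4 R, 2 * (S * (1 / 2 ^ v) + 1) * be v ≤ 11 / 4000 * S + R / 10 := by
  rw [sum_eq_sum_Ico_succ_bot (by omega), sum_eq_sum_Ico_succ_bot (by omega)]
  have h1 : ∑ v ∈ Ico (4 + 1 + 1) R, 2 * (S * (1 / 2 ^ v) + 1) * be v =
      (S * ∑ v ∈ Ico 6 R, (1 : ℝ) / 2 ^ v + (R - 6 : ℕ)) / 14 := by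
    have h2 : ∀ v ∈ Ico 6 R, 2 * (S * (1 / 2 ^ v) + 1) * be v = (S * (1 / 2 ^ v) + 1) / 14 := by
      intro v hv
      rw [mem_Ico] at hv
      rw [be, if_neg (by omega), if_neg (by omega)]
      ring
    rw [show 4 + 1 + 1 = 6 from rfl, sum_congr rfl h2, ← sum_div, sum_add_distrib, ← mul_sum]
    simp
  rw [h1]
  have h2 := mul_le_mul_of_nonneg_left (geo_sum R hR) hS
  have h3 : ((R - 6 : ℕ) : ℝ) = R - 6 := by
    rw [Nat.cast_sub hR]
    norm_num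
  have h4 : (6 : ℝ) ≤ R := by exact_mod_cast hR
  rw [h3]
  clear h1
  generalize ∑ v ∈ Ico 6 R, (1 : ℝ) / 2 ^ v = T at h2 ⊢
  have e4 : be 4 = 1 / 257 := by simp [be]
  have e5 : be (4 + 1) = 1 / 65537 := by norm_num [be]
  rw [e4, e5]
  norm_num
  linarith

lemma prod_ge (s : Finset ℕ) (a : ℕ → ℝ) (h0 : ∀ i ∈ s, 0 ≤ a i) (h1 : ∀ i ∈ s, a i ≤ 1) :
    1 - ∑ i ∈ s, a i ≤ ∏ i ∈ s, (1 - a i) ∧ 0 ≤ ∏ i ∈ s, (1 - a i) ∧ ∏ i ∈ s, (1 - a i) ≤ 1 := by
  classical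
  induction s using Finset.induction_on with
  | empty => simp
  | insert i s hi ih =>
    obtain ⟨h2, h3, h4⟩ := ih (fun j hj => h0 j (mem_insert_of_mem hj)) (fun j hj => h1 j (mem_insert_of_mem hj))
    have h5 := h0 i (mem_insert_self _ _)
    have h6 := h1 i (mem_insert_self _ _)
    rw [sum_insert hi, prod_insert hi]
    refine ⟨?_, mul_nonneg (by linarith) h3, ?_⟩
    · nlinarith
    · nlinarith

lemma totient_ge (n : ℕ) : (n : ℝ) * (1 - ∑ p ∈ n.primeFactors, (1 : ℝ) / p) ≤ (Nat.totient n : ℝ) := by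
  have h1 := Nat.totient_eq_mul_prod_factors n
  have h2 : (Nat.totient n : ℝ) = n * ∏ p ∈ n.primeFactors, (1 - 1 / (p : ℝ)) := by
    have h3 : ((Nat.totient n : ℚ) : ℝ) = ((n * ∏ p ∈ n.primeFactors, (1 - (p : ℚ)⁻¹) : ℚ) : ℝ) := by
      rw [h1]
    push_cast at h3
    simpa [one_div] using h3
  rw [h2]
  refine mul_le_mul_of_nonneg_left (prod_ge _ _ ?_ ?_).1 (by positivity)
  · intro i _
    positivity
  · intro i hi
    have := (Nat.prime_of_mem_primeFactors hi).one_lt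
    rw [div_le_one (by exact_mod_cast (by omega : 0 < i))]
    exact_mod_cast this.le

/-- the multiplier -/
lemma exists_M (R : ℕ) : ∃ M : ℕ, Odd M ∧ 0 < M ∧
    ∀ q : ℕ, q.Prime → q ≤ 2 ^ R + 1 → ∃ e, q - 1 ∣ 2 ^ e * M := by
  refine ⟨ordCompl[2] (2 ^ R + 1).factorial, ?_, Nat.ordCompl_pos 2 (Nat.factorial_ne_zero _), ?_⟩
  · rw [← Nat.not_even_iff_odd, even_iff_two_dvd]
    exact Nat.not_dvd_ordCompl Nat.prime_two (Nat.factorial_ne_zero _)
  · intro q hq hqR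
    refine ⟨(2 ^ R + 1).factorial.factorization 2, ?_⟩
    rw [Nat.ordProj_mul_ordCompl_eq_self]
    exact Nat.dvd_factorial (by have := hq.one_lt; omega) (by omega)

end Pool.Agent.K9h50.PG
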