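import Pool.Agent.K9h50.PG.TotA

/-!
# The numbers `N_m` with `φ(N_m)` near `N_m`: the main estimate
-/

set_option autoImplicit false

open Finset

namespace Pool.Agent.K9h50.PG

lemma cc_facts {M S p : ℕ} (hM : Odd M) (h0 : cc M S p ≠ 0) :
    ∃ s, Odd s ∧ p ∣ N (M * s) ∧ p ≠ 2 ∧ p ≠ 3 ∧ p ≠ 5 ∧ p ≠ 17 := by
  obtain ⟨s, hs⟩ := card_pos.1 (Nat.pos_of_ne_zero h0)
  rw [mem_filter] at hs
  obtain ⟨-, hs1, hs2⟩ := hs
  refine ⟨s, hs1, hs2, ?_, ?_, ?_, ?_⟩
  · rintro rfl
    unfold N at hs2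
    omega
  · rintro rfl
    exact not_3 _ (hM.mul hs1) hs2
  · rintro rfl
    exact not_5 _ hs2
  · rintro rfl
    exact not_17 _ hs2

lemma small_sum {M R S a : ℕ} (hMo : Odd M)
    (hM : ∀ q : ℕ, q.Prime → q ≤ 2 ^ R + 1 → ∃ e, q - 1 ∣ 2 ^ e * M)
    (ha : 5 ≤ a) (hR : R = a + 1) (hS : R ≤ S) :
    ∑ p ∈ (Icc 1 (2 * S)).filter Nat.Prime, (cc M S p : ℝ) * (1 / (p : ℝ)) ≤
      9 * S * (2 / √(a : ℝ)) + (11 / 4000 * S + R / 10) := by
  classical
  set Q := ((Icc 1 (2 * S)).filter Nat.Prime).filter (fun p => cc M S p ≠ 0) with hQdef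
  have e1 : ∑ p ∈ (Icc 1 (2 * S)).filter Nat.Prime, (cc M S p : ℝ) * (1 / (p : ℝ)) =
      ∑ p ∈ Q, (cc M S p : ℝ) * (1 / (p : ℝ)) := by
    rw [hQdef]
    refine (sum_filter_of_ne fun p _ h => ?_).symm
    intro h2
    apply h
    rw [h2]
    simp
  have hQ : ∀ p ∈ Q, p.Prime ∧ 3 ≤ p ∧ p ≤ 2 * S ∧ cc M S p ≠ 0 ∧ p ≠ 3 ∧ 1 ≤ tt M p ∧
      tt M p ∣ p - 1 ∧ (p : ℤ) ∣ (-2) ^ (tt M p) - 1 ∧ tt M p ≤ 2 * S ∧
      (tt M p < R → ∃ v, 4 ≤ v ∧ v < R ∧ tt M p = 2 ^ v ∧ p ∣ 2 ^ (2 ^ (v - 1)) + 1) := by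
    intro p hp
    rw [hQdef, mem_filter, mem_filter, mem_Icc] at hp
    obtain ⟨⟨⟨-, h1⟩, h2⟩, h3⟩ := hp
    obtain ⟨s, hs, hd, n2, n3, n5, n17⟩ := cc_facts hMo h3
    obtain ⟨f1, f2, f3⟩ := tt_facts (M := M) h2 n3 ⟨s, hd⟩
    have h4 := h2.two_le
    have h5 := Nat.le_of_dvd (by omega) f2
    refine ⟨h2, by omega, h1, h3, n3, f1, f2, f3, by omega, fun h6 => ?_⟩
    obtain ⟨-, v, g1, g2, g3, -, g5⟩ := small_order h2 n3 n5 n17 hM hs hd h6
    exact ⟨v, g1, g2, g3, g5⟩
  rw [e1, ← sum_filter_add_sum_filter_not Q (fun p => tt M p < R)]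
  have hS0 : (0 : ℝ) ≤ S := by positivity
  have part2 : ∑ p ∈ Q.filter (fun p => ¬ tt M p < R), (cc M S p : ℝ) * (1 / (p : ℝ)) ≤
      9 * S * (2 / √(a : ℝ)) := by
    have hmaps : ∀ p ∈ Q.filter (fun p => ¬ tt M p < R), tt M p ∈ Ico (a + 1) (2 * S + 1) := by
      intro p hp
      rw [mem_filter] at hp
      have := (hQ p hp.1).2.2.2.2.2.2.2.2.1
      rw [mem_Ico]
      omega
    rw [← sum_fiberwise_of_maps_to hmaps]
    calc _ ≤ ∑ t ∈ Ico (a + 1) (2 * S + 1), 9 * (S : ℝ) * (1 / (t * √(t : ℝ))) := by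
          refine sum_le_sum fun t ht => ?_
          rw [mem_Ico] at ht
          have ht0 : (0 : ℝ) < t := by exact_mod_cast (by omega : 0 < t)
          have hA := sum_A t (by omega) ((Q.filter (fun p => ¬ tt M p < R)).filter (fun p => tt M p = t))
            (by
              intro p hp
              rw [mem_filter, mem_filter] at hp
              obtain ⟨h1, h2, -, -, -, -, h3, h4, -⟩ := hQ p hp.1.1
              rw [hp.2] at h3 h4
              exact ⟨h1, h2, h3, h4⟩)
          calc _ ≤ ∑ p ∈ (Q.filter (fun p => ¬ tt M p < R)).filter (fun p => tt M p = t),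
                6 * (S : ℝ) / t * (1 / (p : ℝ)) := by
                refine sum_le_sum fun p hp => ?_
                rw [mem_filter, mem_filter] at hp
                refine mul_le_mul_of_nonneg_right ?_ (by positivity)
                have h1 := cc_le (hQ p hp.1.1).1 (hQ p hp.1.1).2.2.2.2.1 (hQ p hp.1.1).2.2.2.1
                rw [hp.2] at h1
                have h2 : (cc M S p : ℝ) ≤ 2 * (((S / t : ℕ) : ℝ) + 1) := by exact_mod_cast h1
                have h3 : ((S / t : ℕ) : ℝ) ≤ (S : ℝ) / t := Nat.cast_div_le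
                have h4 : (1 : ℝ) ≤ 2 * S / t := by
                  rw [le_div_iff₀ ht0, one_mul]
                  exact_mod_cast (by omega : t ≤ 2 * S)
                have h5 : 6 * (S : ℝ) / t = 2 * ((S : ℝ) / t + 2 * S / t) := by ring
                rw [h5]
                linarith
            _ = 6 * (S : ℝ) / t * ∑ p ∈ (Q.filter (fun p => ¬ tt M p < R)).filter (fun p => tt M p = t),
                (1 / (p : ℝ)) := by rw [mul_sum]
            _ ≤ 6 * (S : ℝ) / t * (3 / 2 / √(t : ℝ)) := mul_le_mul_of_nonneg_left hA (by positivity)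
            _ = 9 * (S : ℝ) * (1 / (t * √(t : ℝ))) := by
                have : 0 < √(t : ℝ) := Real.sqrt_pos.2 ht0
                field_simp
                ring
      _ = 9 * (S : ℝ) * ∑ t ∈ Ico (a + 1) (2 * S + 1), 1 / ((t : ℝ) * √(t : ℝ)) := by rw [mul_sum]
      _ ≤ 9 * S * (2 / √(a : ℝ)) := by
          refine mul_le_mul_of_nonneg_left ?_ (by positivity)
          have h1 := tail_sum a (2 * S) (by omega) (by omega)
          have h2 : (0 : ℝ) ≤ 2 / √((2 * S : ℕ) : ℝ) := by positivity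
          linarith
  have part1 : ∑ p ∈ Q.filter (fun p => tt M p < R), (cc M S p : ℝ) * (1 / (p : ℝ)) ≤
      11 / 4000 * S + R / 10 := by
    have hlog : ∀ p ∈ Q.filter (fun p => tt M p < R), 4 ≤ Nat.log 2 (tt M p) ∧
        Nat.log 2 (tt M p) < R ∧ tt M p = 2 ^ (Nat.log 2 (tt M p)) ∧
        p ∣ 2 ^ (2 ^ (Nat.log 2 (tt M p) - 1)) + 1 := by
      intro p hp
      rw [mem_filter] at hp
      obtain ⟨v, h1, h2, h3, h4⟩ := (hQ p hp.1).2.2.2.2.2.2.2.2.2 hp.2
      have h5 : Nat.log 2 (tt M p) = v := by rw [h3]; exact Nat.log_pow (by norm_num) v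
      rw [h5]
      exact ⟨h1, h2, h3, h4⟩
    have hmaps : ∀ p ∈ Q.filter (fun p => tt M p < R), Nat.log 2 (tt M p) ∈ Ico 4 R := by
      intro p hp
      rw [mem_Ico]
      exact ⟨(hlog p hp).1, (hlog p hp).2.1⟩
    rw [← sum_fiberwise_of_maps_to hmaps]
    calc _ ≤ ∑ v ∈ Ico 4 R, 2 * ((S : ℝ) * (1 / 2 ^ v) + 1) * be v := by
          refine sum_le_sum fun v hv => ?_
          rw [mem_Ico] at hv
          have hB := sum_B v hv.1 ((Q.filter (fun p => tt M p < R)).filter
            (fun p => Nat.log 2 (tt M p) = v)) (by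
              intro p hp
              rw [mem_filter] at hp
              have h1 := (hlog p hp.1).2.2.2
              rw [hp.2] at h1
              exact ⟨(hQ p (mem_filter.1 hp.1).1).1, h1⟩)
          calc _ ≤ ∑ p ∈ (Q.filter (fun p => tt M p < R)).filter (fun p => Nat.log 2 (tt M p) = v),
                2 * ((S : ℝ) * (1 / 2 ^ v) + 1) * (1 / (p : ℝ)) := by
                refine sum_le_sum fun p hp => ?_
                rw [mem_filter] at hp
                have hpQ := (mem_filter.1 hp.1).1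
                refine mul_le_mul_of_nonneg_right ?_ (by positivity)
                have h1 := cc_le (hQ p hpQ).1 (hQ p hpQ).2.2.2.2.1 (hQ p hpQ).2.2.2.1
                have h6 := (hlog p hp.1).2.2.1
                rw [hp.2] at h6
                rw [h6] at h1
                have h2 : (cc M S p : ℝ) ≤ 2 * (((S / 2 ^ v : ℕ) : ℝ) + 1) := by exact_mod_cast h1
                have h3 : ((S / 2 ^ v : ℕ) : ℝ) ≤ (S : ℝ) * (1 / 2 ^ v) := by
                  have := @Nat.cast_div_le ℝ _ _ _ S (2 ^ v)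
                  rw [mul_one_div]
                  simpa using this
                linarith
            _ = 2 * ((S : ℝ) * (1 / 2 ^ v) + 1) * ∑ p ∈ (Q.filter (fun p => tt M p < R)).filter
                (fun p => Nat.log 2 (tt M p) = v), (1 / (p : ℝ)) := by rw [mul_sum]
            _ ≤ 2 * ((S : ℝ) * (1 / 2 ^ v) + 1) * be v :=
                mul_le_mul_of_nonneg_left hB (by positivity)
      _ ≤ 11 / 4000 * S + R / 10 := be_sum R (by omega) S hS0
  linarith

lemma card_od (S : ℕ) : (S : ℝ) / 2 ≤ (((Icc 1 S).filter (fun s => Odd s)).card : ℝ) := by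
  have h : S ≤ 2 * ((Icc 1 S).filter (fun s => Odd s)).card ∧
      (Odd S → S + 1 ≤ 2 * ((Icc 1 S).filter (fun s => Odd s)).card) := by
    induction S with
    | zero => simp
    | succ S ih =>
      have e : ((Icc 1 (S + 1)).filter (fun s => Odd s)).card =
          ((Icc 1 S).filter (fun s => Odd s)).card + if Odd (S + 1) then 1 else 0 := by
        rw [card_filter, card_filter, sum_Icc_succ_top (by omega)]
      rw [e]
      by_cases h : Odd (S + 1)
      · rw [if_pos h]
        refine ⟨by omega, fun _ => ?_⟩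
        have h2 : ¬ Odd S := by
          rw [Nat.odd_iff] at h ⊢
          omega
        omega
      · rw [if_neg h]
        have h2 : Odd S := by
          rw [Nat.odd_iff] at h ⊢
          omega
        have h3 := ih.2 h2
        exact ⟨by omega, fun h4 => absurd h4 h⟩
  have h2 := h.1
  have h3 : (S : ℝ) ≤ 2 * (((Icc 1 S).filter (fun s => Odd s)).card : ℝ) := by exact_mod_cast h2
  linarith

/-- the large primes -/
lemma big_sum (n S : ℕ) (hn : 0 < n) (hS : 1 ≤ S) :
    ∑ p ∈ n.primeFactors.filter (fun p => ¬ p ≤ 2 * S), (1 : ℝ) / p ≤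
      Real.log n / Real.log (2 * S) / (2 * S) := by
  have hS' : (1 : ℝ) ≤ S := by exact_mod_cast hS
  have hlog : 0 < Real.log (2 * S) := Real.log_pos (by linarith)
  set P := n.primeFactors.filter (fun p => ¬ p ≤ 2 * S) with hP
  have h1 : ∏ p ∈ P, p ∣ n :=
    Finset.prod_primes_dvd n (fun p hp => (Nat.prime_of_mem_primeFactors (mem_filter.1 hp).1).prime)
      (fun p hp => Nat.dvd_of_mem_primeFactors (mem_filter.1 hp).1)
  have h2 := Nat.le_of_dvd hn h1
  have h3 : (2 * S) ^ P.card ≤ ∏ p ∈ P, p := by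
    rw [← prod_const]
    refine prod_le_prod' fun p hp => ?_
    have := (mem_filter.1 hp).2
    omega
  have h4 : (P.card : ℝ) * Real.log (2 * S) ≤ Real.log n := by
    rw [← Real.log_pow]
    refine Real.log_le_log (by positivity) ?_
    exact_mod_cast h3.trans h2
  calc ∑ p ∈ P, (1 : ℝ) / p ≤ ∑ p ∈ P, 1 / (2 * (S : ℝ)) := by
        refine sum_le_sum fun p hp => ?_
        apply one_div_le_one_div_of_le (by positivity)
        have := (mem_filter.1 hp).2
        exact_mod_cast (by omega : 2 * S ≤ p)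
    _ = P.card / (2 * (S : ℝ)) := by rw [sum_const, nsmul_eq_mul, mul_one_div]
    _ ≤ Real.log n / Real.log (2 * S) / (2 * S) := by
        refine div_le_div_of_nonneg_right ?_ (by positivity)
        rwa [le_div_iff₀ hlog]

end Pool.Agent.K9h50.PG
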