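import Pool.Agent.K9h50.PG.TotB

/-!
# The values of `φ(N_m) / N_m` near `φ(N_a) / N_a`
-/

set_option autoImplicit false

open Finset

namespace Pool.Agent.K9h50.PG

lemma N_ring {R : Type*} [CommRing R] (w : R) (hw : w ^ 2 = 8) (m : ℕ) :
    (N m : R) = 2 * ((3 + w) ^ 2) ^ m + 2 * ((3 - w) ^ 2) ^ m + 5 := by
  have h1 := pow_eq w hw m
  have h2 := pow_eq' w hw m
  have h3 : ((sol m).1 : R) ^ 2 = 8 * ((sol m).2 : R) ^ 2 + 1 := by
    exact_mod_cast congrArg (Nat.cast : ℕ → R) (pell m)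
  have e1 : ((3 + w) ^ 2) ^ m = ((3 + w) ^ m) ^ 2 := by rw [← pow_mul, ← pow_mul, mul_comm]
  have e2 : ((3 - w) ^ 2) ^ m = ((3 - w) ^ m) ^ 2 := by rw [← pow_mul, ← pow_mul, mul_comm]
  rw [e1, e2, h1, h2]
  unfold N
  push_cast
  linear_combination 4 * h3 - 4 * ((sol m).2 : R) ^ 2 * hw

lemma N_congr {p : ℕ} {w : ZMod p} (hw : w ^ 2 = 8) (m n : ℕ)
    (h : (uu hw) ^ m = (uu hw) ^ n) (hd : p ∣ N m) : p ∣ N n := by
  have h1 : ((3 + w) ^ 2) ^ m = ((3 + w) ^ 2) ^ n := by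
    have := congrArg Units.val h
    rwa [Units.val_pow_eq_pow_val, Units.val_pow_eq_pow_val, uu_val] at this
  have h2 : ((3 - w) ^ 2) ^ m = ((3 - w) ^ 2) ^ n := by
    have h5 := uv hw
    have h6 : ∀ k : ℕ, ((3 + w) ^ 2) ^ k * ((3 - w) ^ 2) ^ k = 1 := by
      intro k
      rw [← mul_pow, h5, one_pow]
    calc ((3 - w) ^ 2) ^ m = ((3 - w) ^ 2) ^ m * (((3 + w) ^ 2) ^ n * ((3 - w) ^ 2) ^ n) := by
          rw [h6, mul_one]
      _ = (((3 + w) ^ 2) ^ m * ((3 - w) ^ 2) ^ m) * ((3 - w) ^ 2) ^ n := by rw [← h1]; ring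
      _ = _ := by rw [h6, one_mul]
  rw [← ZMod.natCast_eq_zero_iff] at hd ⊢
  rw [N_ring w hw] at hd ⊢
  rw [← h1, ← h2]
  exact hd

lemma three_dvd_even (m : ℕ) (hm : Even m) : 3 ∣ N m := by
  obtain ⟨k, rfl⟩ := hm
  have h : (sol (k + k)).1 % 3 ≠ 0 := by
    induction k with
    | zero => simp [sol]
    | succ k ih =>
      rw [show (k + 1) + (k + 1) = (k + k) + 2 by ring, (sol_two _).1]
      omega
  unfold N
  apply Nat.dvd_of_mod_eq_zero
  have h6 : (sol (k + k)).1 % 3 = 1 ∨ (sol (k + k)).1 % 3 = 2 := by omega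
  rcases h6 with h6 | h6 <;> simp [Nat.add_mod, Nat.mul_mod, Nat.pow_mod, h6]

lemma data2 {p L a : ℕ} (hp : p.Prime) (h3 : p ≠ 3) (hex : ∃ s, p ∣ N (a + L * s)) :
    ∃ (w : ZMod p) (hw : w ^ 2 = 8), tt L p = orderOf ((uu hw) ^ L) := by
  have := Fact.mk hp
  obtain ⟨s, hs⟩ := hex
  obtain ⟨w, hw, -⟩ := root p (a + L * s) hs ((Nat.coprime_primes Nat.prime_three hp).2 (Ne.symm h3))
  have h : ∃ w : ZMod p, w ^ 2 = 8 := ⟨w, hw⟩
  exact ⟨h.choose, h.choose_spec, by rw [tt, dif_pos h]⟩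

/-- the number of `s ≤ S` such that `p` divides `N_(a + L s)` -/
def c2 (a L S p : ℕ) : ℕ := ((Icc 1 S).filter (fun s => p ∣ N (a + L * s))).card

lemma c2_le {p a L S : ℕ} (hp : p.Prime) (h3 : p ≠ 3) (h0 : c2 a L S p ≠ 0) :
    c2 a L S p ≤ 2 * (S / tt L p + 1) := by
  classical
  have := Fact.mk hp
  obtain ⟨s1, hs1⟩ := card_pos.1 (Nat.pos_of_ne_zero h0)
  rw [mem_filter] at hs1
  obtain ⟨w, hw, hu⟩ := data2 hp h3 ⟨s1, hs1.2⟩
  set u := uu hw with hudef
  have hcl := fun s (hs : p ∣ N (a + L * s)) => cls hw (a + L * s) hs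
  rw [← hudef] at hcl
  have hcl2 : ∀ s, p ∣ N (a + L * s) →
      u ^ (a + L * s) = u ^ (a + L * s1) ∨ u ^ (a + L * s) * u ^ (a + L * s1) = 1 := by
    intro s hs
    rcases hcl s hs with h | h <;> rcases hcl s1 hs1.2 with h' | h'
    · left; apply Units.ext; rw [h, h']
    · right; apply Units.ext
      rw [Units.val_mul, h, Units.val_one]
      linear_combination -h'
    · right; apply Units.ext
      rw [Units.val_mul, h', Units.val_one]
      linear_combination -h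
    · left; apply Units.ext
      have h2 : (2 : ZMod p) ≠ 0 := by
        intro h2
        rw [h2, zero_mul] at h
        have : (1 : ZMod p) = 0 := by linear_combination h
        exact one_ne_zero this
      exact mul_left_cancel₀ h2 (h.trans h'.symm)
  have hmod : ∀ x y, u ^ (a + L * x) = u ^ (a + L * y) → x ≡ y [MOD tt L p] := by
    intro x y h
    rw [hu]
    apply pow_eq_pow_iff_modEq.1
    rw [pow_add, pow_add] at h
    have h2 := mul_left_cancel h
    rwa [pow_mul, pow_mul] at h2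
  have hsub : (Icc 1 S).filter (fun s => p ∣ N (a + L * s)) ⊆
      (Icc 1 S).filter (fun s => u ^ (a + L * s) = u ^ (a + L * s1)) ∪
        (Icc 1 S).filter (fun s => u ^ (a + L * s) * u ^ (a + L * s1) = 1) := by
    intro s hs
    rw [mem_filter] at hs
    rcases hcl2 s hs.2 with h | h
    · exact mem_union_left _ (mem_filter.2 ⟨hs.1, h⟩)
    · exact mem_union_right _ (mem_filter.2 ⟨hs.1, h⟩)
  have d1 := card_class S (tt L p) ((Icc 1 S).filter (fun s => u ^ (a + L * s) = u ^ (a + L * s1)))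
    (filter_subset _ _) (by
      intro x hx y hy
      rw [mem_filter] at hx hy
      exact hmod x y (hx.2.trans hy.2.symm))
  have d2 := card_class S (tt L p)
    ((Icc 1 S).filter (fun s => u ^ (a + L * s) * u ^ (a + L * s1) = 1))
    (filter_subset _ _) (by
      intro x hx y hy
      rw [mem_filter] at hx hy
      exact hmod x y (mul_right_cancel (hx.2.trans hy.2.symm)))
  calc c2 a L S p ≤ _ := card_le_card hsub
    _ ≤ _ := card_union_le _ _
    _ ≤ 2 * (S / tt L p + 1) := by omega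

lemma t_facts {p L a : ℕ} (hp : p.Prime) (h3 : p ≠ 3) (hex : ∃ s, p ∣ N (a + L * s)) :
    0 < tt L p ∧ tt L p ∣ p - 1 ∧ (p : ℤ) ∣ T (a * tt L p) (tt L p) := by
  have := Fact.mk hp
  obtain ⟨w, hw, hu⟩ := data2 hp h3 hex
  obtain ⟨s, hs⟩ := hex
  have hcl := cls hw (a + L * s) hs
  rw [hu]
  refine ⟨orderOf_pos _, ZMod.orderOf_units_dvd_card_sub_one _, ?_⟩
  set t := orderOf ((uu hw) ^ L) with ht
  have hU : ((uu hw) ^ (a + L * s)) ^ t = (uu hw) ^ (a * t) := by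
    rw [← pow_mul, add_mul, pow_add, show L * s * t = L * t * s by ring, pow_mul _ (L * t) s,
      pow_mul _ L t, pow_orderOf_eq_one, one_pow, mul_one]
  have hU' : (((uu hw) ^ (a + L * s) : (ZMod p)ˣ) : ZMod p) ^ t = ((3 + w) ^ 2) ^ (a * t) := by
    have := congrArg Units.val hU
    rwa [Units.val_pow_eq_pow_val, Units.val_pow_eq_pow_val _ (a * t), uu_val] at this
  apply box_aux p w hw
  rcases hcl with h | h
  · right
    rw [← hU', h]
  · left
    rw [← hU', ← mul_pow, show (((uu hw) ^ (a + L * s) : (ZMod p)ˣ) : ZMod p) * (-2) = 1 by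
      linear_combination -h, one_pow]

lemma T_natAbs (a t : ℕ) (ht : 1 ≤ t) : 0 < (T (a * t) t).natAbs ∧
    (T (a * t) t).natAbs ≤ 864 ^ ((a + 1) * t) := by
  refine ⟨Int.natAbs_pos.2 (T_ne _ _ (Or.inr (by omega))), ?_⟩
  have h1 := T_le (a * t) t ((a + 1) * t) (Nat.mul_le_mul_right _ (by omega))
    (by nlinarith) (by nlinarith)
  rw [Int.abs_eq_natAbs] at h1
  exact_mod_cast h1

lemma sum_A2 (a t : ℕ) (ht : 1 ≤ t) (P : Finset ℕ)
    (hP : ∀ p ∈ P, p.Prime ∧ t ∣ p - 1 ∧ (p : ℤ) ∣ T (a * t) t) :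
    ∑ p ∈ P, (1 : ℝ) / p ≤ 3 / 2 * √((10 * (a + 1) : ℕ) : ℝ) / √(t : ℝ) := by
  classical
  obtain ⟨hn0, hle⟩ := T_natAbs a t ht
  have hlt : (T (a * t) t).natAbs < 2 ^ (10 * (a + 1) * t + 1) := by
    have h1 : 864 ^ ((a + 1) * t) ≤ 1024 ^ ((a + 1) * t) := Nat.pow_le_pow_left (by norm_num) _
    have h2 : (1024 : ℕ) ^ ((a + 1) * t) = 2 ^ (10 * (a + 1) * t) := by
      rw [show (1024 : ℕ) = 2 ^ 10 by norm_num, ← pow_mul, mul_assoc]
    have h3 : 0 < 2 ^ (10 * (a + 1) * t) := by positivity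
    rw [pow_succ]
    omega
  have hcard : P.card ≤ 10 * (a + 1) * t := by
    have := card_of_prod P 2 (T (a * t) t).natAbs (10 * (a + 1) * t) 1 (by norm_num)
      (fun p hp => ⟨(hP p hp).1, by simpa using (hP p hp).1.two_le, Int.natCast_dvd.1 (hP p hp).2.2⟩)
      hn0 hlt
    omega
  have hk : ∀ p ∈ P, p = t * ((p - 1) / t) + 1 ∧ 1 ≤ (p - 1) / t := by
    intro p hp
    obtain ⟨h1, ⟨k, hk⟩, -⟩ := hP p hp
    have h2 := h1.two_le
    have h5 : (p - 1) / t = k := by rw [hk, Nat.mul_div_cancel_left _ (by omega)]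
    rw [h5]
    refine ⟨by omega, ?_⟩
    rcases Nat.eq_zero_or_pos k with h | h
    · rw [h] at hk
      omega
    · exact h
  have hinj : Set.InjOn (fun p => (p - 1) / t) (P : Set ℕ) := by
    intro p hp q hq h
    have h1 := (hk p hp).1
    have h2 := (hk q hq).1
    simp only at h
    rw [h] at h1
    omega
  have ht' : (0 : ℝ) < t := by exact_mod_cast ht
  have hs : 0 < √(t : ℝ) := Real.sqrt_pos.2 ht'
  calc ∑ p ∈ P, (1 : ℝ) / p ≤ ∑ p ∈ P, 1 / (t : ℝ) * (1 / (((p - 1) / t : ℕ) : ℝ)) := by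
        refine sum_le_sum fun p hp => ?_
        obtain ⟨h1, h2⟩ := hk p hp
        have h2' : (0 : ℝ) < (((p - 1) / t : ℕ) : ℝ) := by exact_mod_cast h2
        have h3 : (p : ℝ) = t * (((p - 1) / t : ℕ) : ℝ) + 1 := by exact_mod_cast h1
        rw [one_div_mul_one_div]
        apply one_div_le_one_div_of_le (by positivity)
        rw [h3]
        linarith
    _ = 1 / (t : ℝ) * ∑ k ∈ P.image (fun p => (p - 1) / t), (1 : ℝ) / k := by
        rw [← mul_sum, sum_image hinj]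
    _ ≤ 1 / (t : ℝ) * (3 / 2 * √((10 * (a + 1) * t : ℕ) : ℝ)) := by
        refine mul_le_mul_of_nonneg_left ?_ (by positivity)
        refine sum_inv_le _ (10 * (a + 1) * t) (by nlinarith) ?_ (card_image_le.trans hcard)
        intro k hk2
        obtain ⟨p, hp, rfl⟩ := mem_image.1 hk2
        exact (hk p hp).2
    _ = 3 / 2 * √((10 * (a + 1) : ℕ) : ℝ) / √(t : ℝ) := by
        have h1 : √(t : ℝ) * √(t : ℝ) = t := Real.mul_self_sqrt ht'.le
        rw [Nat.cast_mul (10 * (a + 1)) t, Real.sqrt_mul (by positivity)]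
        rw [div_mul_eq_mul_div, one_mul, div_eq_div_iff ht'.ne' hs.ne']
        linear_combination (3 / 2 * √((10 * (a + 1) : ℕ) : ℝ)) * h1

lemma small_sum2 {a L R S b : ℕ} (hLe : Even L)
    (hL : ∀ q : ℕ, q.Prime → q ≤ 864 ^ ((a + 1) * R) → q - 1 ∣ L)
    (hb : 1 ≤ b) (hR : R = b + 1) (hS : R ≤ S) :
    ∑ p ∈ (Icc 1 (2 * S)).filter (fun p => p.Prime ∧ ¬ p ∣ N a), (c2 a L S p : ℝ) * (1 / (p : ℝ)) ≤
      9 * √((10 * (a + 1) : ℕ) : ℝ) * S * (2 / √(b : ℝ)) := by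
  classical
  set Q := ((Icc 1 (2 * S)).filter (fun p => p.Prime ∧ ¬ p ∣ N a)).filter (fun p => c2 a L S p ≠ 0)
    with hQdef
  have e1 : ∑ p ∈ (Icc 1 (2 * S)).filter (fun p => p.Prime ∧ ¬ p ∣ N a),
      (c2 a L S p : ℝ) * (1 / (p : ℝ)) = ∑ p ∈ Q, (c2 a L S p : ℝ) * (1 / (p : ℝ)) := by
    rw [hQdef]
    refine (sum_filter_of_ne fun p _ h => ?_).symm
    intro h2
    apply h
    rw [h2]
    simp
  have hQ : ∀ p ∈ Q, p.Prime ∧ c2 a L S p ≠ 0 ∧ p ≠ 3 ∧ 1 ≤ tt L p ∧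
      tt L p ∣ p - 1 ∧ (p : ℤ) ∣ T (a * tt L p) (tt L p) ∧ tt L p ≤ 2 * S ∧ R ≤ tt L p := by
    intro p hp
    rw [hQdef, mem_filter, mem_filter, mem_Icc] at hp
    obtain ⟨⟨⟨-, h1⟩, h2, hna⟩, h3⟩ := hp
    have := Fact.mk h2
    obtain ⟨s, hs⟩ := card_pos.1 (Nat.pos_of_ne_zero h3)
    have hd := (mem_filter.1 hs).2
    have n3 : p ≠ 3 := by
      rintro rfl
      rcases Nat.even_or_odd a with he | ho
      · exact hna (three_dvd_even a he)
      · exact not_3 _ (ho.add_even (hLe.mul_right s)) hd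
    obtain ⟨f1, f2, f3⟩ := t_facts (L := L) (a := a) h2 n3 ⟨s, hd⟩
    have h4 := h2.two_le
    have h5 := Nat.le_of_dvd (by omega) f2
    refine ⟨h2, h3, n3, f1, f2, f3, by omega, ?_⟩
    by_contra hlt
    push Not at hlt
    obtain ⟨g1, g2⟩ := T_natAbs a (tt L p) f1
    have h6 : p ≤ 864 ^ ((a + 1) * R) := by
      refine (Nat.le_of_dvd g1 (Int.natCast_dvd.1 f3)).trans (g2.trans ?_)
      exact Nat.pow_le_pow_right (by norm_num) (Nat.mul_le_mul_left _ hlt.le)
    have h7 := hL p h2 h6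
    obtain ⟨w, hw, -⟩ := data2 (L := L) (a := a) h2 n3 ⟨s, hd⟩
    have h8 : (uu hw) ^ L = 1 :=
      orderOf_dvd_iff_pow_eq_one.1 ((ZMod.orderOf_units_dvd_card_sub_one _).trans h7)
    refine hna (N_congr hw (a + L * s) a ?_ hd)
    rw [pow_add, pow_mul, h8, one_pow, mul_one]
  rw [e1]
  have hmaps : ∀ p ∈ Q, tt L p ∈ Ico (b + 1) (2 * S + 1) := by
    intro p hp
    obtain ⟨-, -, -, -, -, -, h1, h2⟩ := hQ p hp
    rw [mem_Ico]
    omega
  rw [← sum_fiberwise_of_maps_to hmaps]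
  set D := √((10 * (a + 1) : ℕ) : ℝ) with hD
  have hD0 : 0 ≤ D := Real.sqrt_nonneg _
  calc _ ≤ ∑ t ∈ Ico (b + 1) (2 * S + 1), 9 * D * (S : ℝ) * (1 / (t * √(t : ℝ))) := by
        refine sum_le_sum fun t ht => ?_
        rw [mem_Ico] at ht
        have ht0 : (0 : ℝ) < t := by exact_mod_cast (by omega : 0 < t)
        have hA := sum_A2 a t (by omega) (Q.filter (fun p => tt L p = t))
          (by
            intro p hp
            rw [mem_filter] at hp
            obtain ⟨h1, -, -, -, h3, h4, -, -⟩ := hQ p hp.1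
            rw [hp.2] at h3 h4
            exact ⟨h1, h3, h4⟩)
        rw [← hD] at hA
        calc _ ≤ ∑ p ∈ Q.filter (fun p => tt L p = t), 6 * (S : ℝ) / t * (1 / (p : ℝ)) := by
              refine sum_le_sum fun p hp => ?_
              rw [mem_filter] at hp
              refine mul_le_mul_of_nonneg_right ?_ (by positivity)
              have h1 := c2_le (hQ p hp.1).1 (hQ p hp.1).2.2.1 (hQ p hp.1).2.1
              rw [hp.2] at h1
              have h2 : (c2 a L S p : ℝ) ≤ 2 * (((S / t : ℕ) : ℝ) + 1) := by exact_mod_cast h1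
              have h3 : ((S / t : ℕ) : ℝ) ≤ (S : ℝ) / t := Nat.cast_div_le
              have h4 : (1 : ℝ) ≤ 2 * S / t := by
                rw [le_div_iff₀ ht0, one_mul]
                exact_mod_cast (by omega : t ≤ 2 * S)
              have h5 : 6 * (S : ℝ) / t = 2 * ((S : ℝ) / t + 2 * S / t) := by ring
              rw [h5]
              linarith
          _ = 6 * (S : ℝ) / t * ∑ p ∈ Q.filter (fun p => tt L p = t), (1 / (p : ℝ)) := by
              rw [mul_sum]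
          _ ≤ 6 * (S : ℝ) / t * (3 / 2 * D / √(t : ℝ)) := mul_le_mul_of_nonneg_left hA (by positivity)
          _ = 9 * D * (S : ℝ) * (1 / (t * √(t : ℝ))) := by
              have : 0 < √(t : ℝ) := Real.sqrt_pos.2 ht0
              field_simp
              ring
    _ = 9 * D * (S : ℝ) * ∑ t ∈ Ico (b + 1) (2 * S + 1), 1 / ((t : ℝ) * √(t : ℝ)) := by rw [mul_sum]
    _ ≤ 9 * D * S * (2 / √(b : ℝ)) := by
        refine mul_le_mul_of_nonneg_left ?_ (by positivity)
        have h1 := tail_sum b (2 * S) (by omega) (by omega)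
        have h2 : (0 : ℝ) ≤ 2 / √((2 * S : ℕ) : ℝ) := by positivity
        linarith

end Pool.Agent.K9h50.PG
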