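import Pool.Agent.K9h50.PG.TotD

/-!
# The values of `φ(N_m) / N_m` near `φ(N_a) / N_a`: main theorem
-/

set_option autoImplicit false

open Finset

namespace Pool.Agent.K9h50.PG

/-- `φ(n) / n` in terms of `φ(n₀) / n₀` and the prime divisors of `n` which do not divide `n₀` -/
lemma totient_ratio (n n₀ : ℕ) (hn : 0 < n) (hn₀ : 0 < n₀) :
    (Nat.totient n₀ : ℝ) / n₀ * (1 - ∑ p ∈ n.primeFactors.filter (fun p => ¬ p ∣ n₀), (1 : ℝ) / p) ≤
      (Nat.totient n : ℝ) / n := by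
  classical
  have hphi : ∀ k : ℕ, 0 < k → (Nat.totient k : ℝ) / k = ∏ p ∈ k.primeFactors, (1 - 1 / (p : ℝ)) := by
    intro k hk
    have h1 := Nat.totient_eq_mul_prod_factors k
    have h3 : ((Nat.totient k : ℚ) : ℝ) = ((k * ∏ p ∈ k.primeFactors, (1 - (p : ℚ)⁻¹) : ℚ) : ℝ) := by
      rw [h1]
    push_cast at h3
    have hk' : (0 : ℝ) < k := by exact_mod_cast hk
    rw [div_eq_iff hk'.ne', mul_comm]
    simpa [one_div] using h3
  have hb : ∀ k : ℕ, ∀ i ∈ k.primeFactors, (0 : ℝ) ≤ 1 / (i : ℝ) ∧ 1 / (i : ℝ) ≤ 1 := by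
    intro k i hi
    have := (Nat.prime_of_mem_primeFactors hi).one_lt
    refine ⟨by positivity, ?_⟩
    rw [div_le_one (by exact_mod_cast (by omega : 0 < i))]
    exact_mod_cast this.le
  rw [hphi n hn, hphi n₀ hn₀, ← prod_filter_mul_prod_filter_not n.primeFactors (fun p => p ∣ n₀)]
  have hsub : n.primeFactors.filter (fun p => p ∣ n₀) ⊆ n₀.primeFactors := by
    intro p hp
    rw [mem_filter] at hp
    rw [Nat.mem_primeFactors]
    exact ⟨Nat.prime_of_mem_primeFactors hp.1, hp.2, hn₀.ne'⟩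
  have h1 : ∏ p ∈ n₀.primeFactors, (1 - 1 / (p : ℝ)) ≤
      ∏ p ∈ n.primeFactors.filter (fun p => p ∣ n₀), (1 - 1 / (p : ℝ)) := by
    rw [← prod_sdiff hsub]
    have h2 := (prod_ge (n₀.primeFactors \ n.primeFactors.filter (fun p => p ∣ n₀))
      (fun p => 1 / (p : ℝ)) (fun i hi => (hb n₀ i (mem_sdiff.1 hi).1).1)
      (fun i hi => (hb n₀ i (mem_sdiff.1 hi).1).2)).2.2
    have h3 := (prod_ge (n.primeFactors.filter (fun p => p ∣ n₀))
      (fun p => 1 / (p : ℝ)) (fun i hi => (hb n i (mem_filter.1 hi).1).1)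
      (fun i hi => (hb n i (mem_filter.1 hi).1).2)).2.1
    exact mul_le_of_le_one_left h3 h2
  have h2 := prod_ge (n.primeFactors.filter (fun p => ¬ p ∣ n₀))
    (fun p => 1 / (p : ℝ)) (fun i hi => (hb n i (mem_filter.1 hi).1).1)
    (fun i hi => (hb n i (mem_filter.1 hi).1).2)
  have h3 := (prod_ge n₀.primeFactors
    (fun p => 1 / (p : ℝ)) (fun i hi => (hb n₀ i hi).1) (fun i hi => (hb n₀ i hi).2)).2.1
  calc _ ≤ (∏ p ∈ n₀.primeFactors, (1 - 1 / (p : ℝ))) *
        ∏ p ∈ n.primeFactors.filter (fun p => ¬ p ∣ n₀), (1 - 1 / (p : ℝ)) :=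
        mul_le_mul_of_nonneg_left h2.1 h3
    _ ≤ _ := mul_le_mul_of_nonneg_right h1 h2.2.1

/-- the sum over the small primes -/
noncomputable def sm2 (a L S s : ℕ) : ℝ :=
  ∑ p ∈ (Icc 1 (2 * S)).filter (fun p => p.Prime ∧ ¬ p ∣ N a),
    if p ∣ N (a + L * s) then (1 : ℝ) / p else 0

lemma sm2_nonneg (a L S s : ℕ) : 0 ≤ sm2 a L S s :=
  sum_nonneg fun p _ => by split_ifs <;> positivity

lemma sum_sm2 (a L S : ℕ) : ∑ s ∈ Icc 1 S, sm2 a L S s =
    ∑ p ∈ (Icc 1 (2 * S)).filter (fun p => p.Prime ∧ ¬ p ∣ N a),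
      (c2 a L S p : ℝ) * (1 / (p : ℝ)) := by
  unfold sm2
  rw [sum_comm]
  refine sum_congr rfl fun p _ => ?_
  rw [← sum_filter, sum_const, nsmul_eq_mul]
  rfl

lemma sum_le2 (a L S s : ℕ) (e : ℝ) (hL1 : 1 ≤ L) (hs : s ≤ S) (hS : 1 ≤ S)
    (hlogS : 7 * ((a + L : ℕ) : ℝ) ≤ e * Real.log (2 * S)) :
    ∑ p ∈ (N (a + L * s)).primeFactors.filter (fun p => ¬ p ∣ N a), (1 : ℝ) / p ≤
      sm2 a L S s + e / 2 := by
  classical
  have hS' : (1 : ℝ) ≤ S := by exact_mod_cast hS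
  have hL' : (1 : ℝ) ≤ ((a + L : ℕ) : ℝ) := by exact_mod_cast (by omega : 1 ≤ a + L)
  rw [← sum_filter_add_sum_filter_not ((N (a + L * s)).primeFactors.filter (fun p => ¬ p ∣ N a))
    (fun p => p ≤ 2 * S)]
  have h1 : ∑ p ∈ ((N (a + L * s)).primeFactors.filter (fun p => ¬ p ∣ N a)).filter
      (fun p => p ≤ 2 * S), (1 : ℝ) / p ≤ sm2 a L S s := by
    unfold sm2
    rw [← sum_filter]
    refine sum_le_sum_of_subset_of_nonneg ?_ (fun _ _ _ => by positivity)
    intro p hp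
    rw [mem_filter, mem_filter] at hp
    rw [mem_filter, mem_filter, mem_Icc]
    exact ⟨⟨⟨(Nat.prime_of_mem_primeFactors hp.1.1).one_lt.le, hp.2⟩,
      Nat.prime_of_mem_primeFactors hp.1.1, hp.1.2⟩, Nat.dvd_of_mem_primeFactors hp.1.1⟩
  have h1' : ∑ p ∈ ((N (a + L * s)).primeFactors.filter (fun p => ¬ p ∣ N a)).filter
      (fun p => ¬ p ≤ 2 * S), (1 : ℝ) / p ≤
      ∑ p ∈ (N (a + L * s)).primeFactors.filter (fun p => ¬ p ≤ 2 * S), (1 : ℝ) / p := by
    refine sum_le_sum_of_subset_of_nonneg ?_ (fun _ _ _ => by positivity)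
    intro p hp
    rw [mem_filter, mem_filter] at hp
    exact mem_filter.2 ⟨hp.1.1, hp.2⟩
  have h2 := big_sum (N (a + L * s)) S (N_pos _) hS
  have h3 := (logN (a + L * s)).2
  have h4 := log_alpha.2
  have h5 : Real.log (N (a + L * s)) ≤ 7 * ((a + L : ℕ) : ℝ) * S := by
    have h6 : ((a + L * s : ℕ) : ℝ) ≤ ((a + L : ℕ) : ℝ) * S := by
      have : a + L * s ≤ (a + L) * S := by
        have i1 : a * 1 ≤ a * S := Nat.mul_le_mul_left a hS
        have i2 : L * s ≤ L * S := Nat.mul_le_mul_left L hs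
        rw [add_mul]
        omega
      exact_mod_cast this
    have h7 : (0 : ℝ) ≤ ((a + L * s : ℕ) : ℝ) := by positivity
    have h8 : 2 * ((a + L * s : ℕ) : ℝ) * Real.log (3 + √8) ≤ 2 * ((a + L * s : ℕ) : ℝ) * 2 :=
      mul_le_mul_of_nonneg_left h4 (by positivity)
    have h9 : (1 : ℝ) ≤ ((a + L : ℕ) : ℝ) * S := by nlinarith
    nlinarith
  have hlog : 0 < Real.log (2 * S) := Real.log_pos (by linarith)
  have h6 : Real.log (N (a + L * s)) / Real.log (2 * S) / (2 * S) ≤ e / 2 := by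
    rw [div_div, div_le_div_iff₀ (by positivity) (by norm_num)]
    have h7 : 7 * ((a + L : ℕ) : ℝ) * (2 * S) ≤ e * Real.log (2 * S) * (2 * S) :=
      mul_le_mul_of_nonneg_right hlogS (by positivity)
    nlinarith
  linarith

/-- the step of the sequence modulo `n` -/
def stp (n : ℕ) : Equiv.Perm (ZMod n × ZMod n) where
  toFun x := (3 * x.1 + 8 * x.2, x.1 + 3 * x.2)
  invFun x := (3 * x.1 - 8 * x.2, -x.1 + 3 * x.2)
  left_inv x := by
    apply Prod.ext
    · show 3 * (3 * x.1 + 8 * x.2) - 8 * (x.1 + 3 * x.2) = x.1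
      ring
    · show -(3 * x.1 + 8 * x.2) + 3 * (x.1 + 3 * x.2) = x.2
      ring
  right_inv x := by
    apply Prod.ext
    · show 3 * (3 * x.1 - 8 * x.2) + 8 * (-x.1 + 3 * x.2) = x.1
      ring
    · show (3 * x.1 - 8 * x.2) + 3 * (-x.1 + 3 * x.2) = x.2
      ring

lemma stp_pow (n m : ℕ) : (((sol m).1 : ZMod n), ((sol m).2 : ZMod n)) = ((stp n) ^ m) (1, 0) := by
  induction m with
  | zero => simp [sol]
  | succ m ih =>
    rw [pow_succ', Equiv.Perm.mul_apply, ← ih]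
    simp only [sol]
    push_cast
    rfl

lemma period (n : ℕ) (hn : 0 < n) : ∃ L₀ : ℕ, 0 < L₀ ∧ ∀ a k, L₀ ∣ k → n ∣ N a → n ∣ N (a + k) := by
  have : NeZero n := ⟨hn.ne'⟩
  refine ⟨orderOf (stp n), orderOf_pos _, ?_⟩
  rintro a k ⟨s, rfl⟩ hd
  have h1 : (stp n) ^ (a + orderOf (stp n) * s) = (stp n) ^ a := by
    rw [pow_add, pow_mul, pow_orderOf_eq_one, one_pow, mul_one]
  have h2 := stp_pow n (a + orderOf (stp n) * s)
  rw [h1, ← stp_pow] at h2
  have h3 := congrArg Prod.fst h2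
  simp only at h3
  rw [← ZMod.natCast_eq_zero_iff] at hd ⊢
  unfold N at hd ⊢
  push_cast at hd ⊢
  rw [h3]
  exact hd

/-- the property of `m` in the theorem -/
def G (a L' : ℕ) (ε : ℝ) (m : ℕ) : Prop :=
  m ≡ a [MOD L'] ∧ N a ∣ N m ∧
    ∑ p ∈ (N m).primeFactors.filter (fun p => ¬ p ∣ N a), (1 : ℝ) / p ≤ ε ∧
    (1 - ε) * ((Nat.totient (N a) : ℝ) / N a) ≤ (Nat.totient (N m) : ℝ) / N m

open Classical in
theorem tot_main2 (a L' : ℕ) (hL' : 0 < L') (ε : ℝ) (hε : 0 < ε) :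
    ∃ c : ℝ, 0 < c ∧ ∃ X₀ : ℕ, ∀ X : ℕ, X₀ ≤ X →
    c * X ≤ (((Icc 1 X).filter (G a L' ε)).card : ℝ) := by
  set D := √((10 * (a + 1) : ℕ) : ℝ) with hD
  have hD0 : 0 ≤ D := Real.sqrt_nonneg _
  -- the choice of `b`
  obtain ⟨b, hb1, hb⟩ : ∃ b : ℕ, 1 ≤ b ∧ 9 * D * (2 / √(b : ℝ)) ≤ ε / 4 := by
    obtain ⟨k, hk⟩ := exists_nat_ge (72 * D / ε + 1)
    have hk1 : (1 : ℝ) ≤ k := by
      have : 0 ≤ 72 * D / ε := by positivity
      linarith
    have hk1' : 1 ≤ k := by exact_mod_cast hk1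
    refine ⟨k ^ 2, Nat.one_le_pow _ _ hk1', ?_⟩
    rw [Nat.cast_pow, Real.sqrt_sq (by linarith)]
    have hk2 : 72 * D / ε ≤ k := by linarith
    rw [div_le_iff₀ hε] at hk2
    rw [mul_div_assoc', div_le_div_iff₀ (by linarith) (by norm_num)]
    linarith
  obtain ⟨R, hR⟩ : ∃ R, R = b + 1 := ⟨_, rfl⟩
  obtain ⟨L₀, hL₀, hper⟩ := period (N a) (N_pos a)
  obtain ⟨L, hL1, hLe, hLL', hLL₀, hL⟩ : ∃ L : ℕ, 1 ≤ L ∧ Even L ∧ L' ∣ L ∧ L₀ ∣ L ∧
      ∀ q : ℕ, q.Prime → q ≤ 864 ^ ((a + 1) * R) → q - 1 ∣ L := by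
    refine ⟨2 * (864 ^ ((a + 1) * R)).factorial * L' * L₀, ?_, ?_, ?_, ?_, ?_⟩
    · have := Nat.factorial_pos (864 ^ ((a + 1) * R))
      exact Nat.mul_pos (Nat.mul_pos (Nat.mul_pos (by norm_num) this) hL') hL₀
    · rw [mul_assoc, mul_assoc]
      exact even_two_mul _
    · exact Dvd.intro_left _ rfl |>.mul_right _
    · exact Dvd.intro_left _ rfl
    · intro q hq hqR
      refine ((Dvd.dvd.mul_left (Nat.dvd_factorial ?_ ?_) 2).mul_right L').mul_right L₀
      · have := hq.one_lt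
        omega
      · omega
  obtain ⟨S₁, hS₁⟩ := exists_nat_ge (Real.exp (7 * ((a + L : ℕ) : ℝ) / ε))
  have key : ∀ S : ℕ, R + S₁ + 1 ≤ S →
      (S : ℝ) / 2 ≤ (((Icc 1 S).filter (fun s => G a L' ε (a + L * s))).card : ℝ) := by
    intro S hS
    have hS1 : (S₁ : ℝ) ≤ S := by exact_mod_cast (by omega : S₁ ≤ S)
    have hS0 : (1 : ℝ) ≤ S := by exact_mod_cast (by omega : 1 ≤ S)
    have hlogS : 7 * ((a + L : ℕ) : ℝ) ≤ ε * Real.log (2 * S) := by
      have h1 : 7 * ((a + L : ℕ) : ℝ) / ε ≤ Real.log (2 * S) := by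
        rw [Real.le_log_iff_exp_le (by positivity)]
        linarith
      rw [div_le_iff₀ hε] at h1
      linarith
    have htot : ∑ s ∈ Icc 1 S, sm2 a L S s ≤ ε / 4 * S := by
      rw [sum_sm2]
      refine (small_sum2 hLe hL hb1 hR (by omega)).trans ?_
      rw [← hD]
      calc 9 * D * S * (2 / √(b : ℝ)) = 9 * D * (2 / √(b : ℝ)) * S := by ring
        _ ≤ _ := mul_le_mul_of_nonneg_right hb (by positivity)
    have hbad : (((Icc 1 S).filter (fun s => ε / 2 < sm2 a L S s)).card : ℝ) * (ε / 2) ≤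
        ε / 4 * S := by
      calc (((Icc 1 S).filter (fun s => ε / 2 < sm2 a L S s)).card : ℝ) * (ε / 2)
          = ∑ s ∈ (Icc 1 S).filter (fun s => ε / 2 < sm2 a L S s), (ε / 2 : ℝ) := by
            rw [sum_const, nsmul_eq_mul]
        _ ≤ ∑ s ∈ (Icc 1 S).filter (fun s => ε / 2 < sm2 a L S s), sm2 a L S s :=
            sum_le_sum fun s hs => (mem_filter.1 hs).2.le
        _ ≤ ∑ s ∈ Icc 1 S, sm2 a L S s := sum_le_sum_of_subset_of_nonneg (filter_subset _ _)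
            (fun s _ _ => sm2_nonneg a L S s)
        _ ≤ _ := htot
    have hbad2 : (((Icc 1 S).filter (fun s => ε / 2 < sm2 a L S s)).card : ℝ) ≤ S / 2 := by
      by_contra hcon
      push Not at hcon
      have := mul_lt_mul_of_pos_right hcon (by positivity : 0 < ε / 2)
      linarith
    have hcount : ((Icc 1 S).filter (fun s => ε / 2 < sm2 a L S s)).card +
        ((Icc 1 S).filter (fun s => ¬ ε / 2 < sm2 a L S s)).card = S := by
      rw [card_filter_add_card_filter_not]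
      simp
    have hsub : (Icc 1 S).filter (fun s => ¬ ε / 2 < sm2 a L S s) ⊆
        (Icc 1 S).filter (fun s => G a L' ε (a + L * s)) := by
      intro s hs
      rw [mem_filter] at hs ⊢
      refine ⟨hs.1, ?_⟩
      have h2 := hs.2
      push Not at h2
      have h3 := sum_le2 a L S s ε hL1 (mem_Icc.1 hs.1).2 (by omega) hlogS
      have h4 := totient_ratio (N (a + L * s)) (N a) (N_pos _) (N_pos _)
      have h5 : a + L * s ≡ a [MOD L'] := by
        have h6 : L' ∣ L * s := hLL'.mul_right s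
        have h7 := (Nat.modEq_zero_iff_dvd.2 h6).add_left a
        simpa using h7
      refine ⟨h5, hper a (L * s) (hLL₀.mul_right s) dvd_rfl, by linarith, ?_⟩
      refine le_trans ?_ h4
      rw [mul_comm]
      refine mul_le_mul_of_nonneg_left ?_ (by positivity)
      linarith
    have hle := card_le_card hsub
    have hle' : (((Icc 1 S).filter (fun s => ¬ ε / 2 < sm2 a L S s)).card : ℝ) ≤
        (((Icc 1 S).filter (fun s => G a L' ε (a + L * s))).card : ℝ) := by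
      exact_mod_cast hle
    have hcount' : (((Icc 1 S).filter (fun s => ε / 2 < sm2 a L S s)).card : ℝ) +
        (((Icc 1 S).filter (fun s => ¬ ε / 2 < sm2 a L S s)).card : ℝ) = S := by
      exact_mod_cast hcount
    linarith
  refine ⟨1 / (2 * ((a + 2 * L : ℕ) : ℝ)), ?_, a + L * (R + S₁ + 1), fun X hX => ?_⟩
  · have : (0 : ℝ) < ((a + 2 * L : ℕ) : ℝ) := by exact_mod_cast (by omega : 0 < a + 2 * L)
    positivity
  have hS : R + S₁ + 1 ≤ (X - a) / L := by
    rw [Nat.le_div_iff_mul_le (by omega), mul_comm]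
    omega
  have h1 := key ((X - a) / L) hS
  have h2 : ((Icc 1 ((X - a) / L)).filter (fun s => G a L' ε (a + L * s))).card ≤
      ((Icc 1 X).filter (G a L' ε)).card := by
    refine card_le_card_of_injOn (fun s => a + L * s) ?_ ?_
    · intro s hs
      rw [mem_coe, mem_filter, mem_Icc] at hs
      rw [mem_coe, mem_filter, mem_Icc]
      refine ⟨⟨?_, ?_⟩, hs.2⟩
      · have : 1 * 1 ≤ L * s := Nat.mul_le_mul hL1 hs.1.1
        show 1 ≤ a + L * s
        omega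
      · have h3 : L * s ≤ L * ((X - a) / L) := Nat.mul_le_mul_left L hs.1.2
        have h4 : L * ((X - a) / L) ≤ X - a := Nat.mul_div_le _ L
        show a + L * s ≤ X
        omega
    · intro x _ y _ h
      simp only at h
      exact Nat.eq_of_mul_eq_mul_left hL1 (by omega : L * x = L * y)
  have h3 : (X : ℝ) ≤ ((a + 2 * L : ℕ) : ℝ) * (((X - a) / L : ℕ) : ℝ) := by
    have h4 : X - a < L * ((X - a) / L) + L := by
      have := Nat.lt_div_mul_add hL1 (a := X - a)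
      rw [mul_comm]
      exact this
    have h5 : X ≤ (a + 2 * L) * ((X - a) / L) := by
      have h6 : L * 1 ≤ L * ((X - a) / L) := Nat.mul_le_mul_left L (by omega)
      have h7 : a * 1 ≤ a * ((X - a) / L) := Nat.mul_le_mul_left a (by omega)
      have h8 : (a + 2 * L) * ((X - a) / L) = a * ((X - a) / L) + 2 * (L * ((X - a) / L)) := by ring
      omega
    exact_mod_cast h5
  have h4 : (((Icc 1 ((X - a) / L)).filter (fun s => G a L' ε (a + L * s))).card : ℝ) ≤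
      (((Icc 1 X).filter (G a L' ε)).card : ℝ) := by
    exact_mod_cast h2
  refine le_trans ?_ (h1.trans h4)
  have hMp : (0 : ℝ) < ((a + 2 * L : ℕ) : ℝ) := by exact_mod_cast (by omega : 0 < a + 2 * L)
  rw [div_mul_eq_mul_div, one_mul, div_le_div_iff₀ (by positivity) (by norm_num)]
  linarith

end Pool.Agent.K9h50.PG
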